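import Pool.Agent.FlipWalk.Catalan

/-!
The analytic part: a first entry identity and a level bound for functions satisfying the
recursions of the spine.
-/

namespace Pool.Agent.FlipWalk

open Finset

lemma G_rec (x y : ℕ) :
    ∑ u ∈ range x, cc (u + y + 1) * cc (x - u) + ∑ v ∈ range y, cc (x + v + 1) * cc (y - v)
      = if x = 0 ∧ y = 0 then 0 else cc (x + y + 1) := by
  split_ifs with h
  · obtain ⟨rfl, rfl⟩ := h
    simp
  · have hm : 2 ≤ x + 1 + y := by omega
    have e : x + y + 1 = x + 1 + y := by ring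
    rw [e, cc_rec hm, Finset.sum_range_add, Finset.sum_range_succ', cc_zero, zero_mul, add_zero]
    congr 1
    · rw [← Finset.sum_range_reflect]
      apply Finset.sum_congr rfl
      intro i hi
      have hi' : i < x := by simpa using hi
      have e1 : x - (x - 1 - i) = i + 1 := by omega
      have e2 : x - 1 - i + y + 1 = x + 1 + y - (i + 1) := by omega
      rw [e1, e2]; ring
    · apply Finset.sum_congr rfl
      intro v hv
      have hv' : v < y := by simpa using hv
      have e1 : x + 1 + y - (x + 1 + v) = y - v := by omega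
      have e2 : x + v + 1 = x + 1 + v := by ring
      rw [e1, e2]

lemma G_rec' {j : ℕ} {x y : ℕ} (hx : x < j + 1) (hy : y < j) :
    ∑ u ∈ range (j + 1), (4 * cc (u + y + 1)) * cc (x - u)
      + ∑ v ∈ range j, (4 * cc (x + v + 1)) * cc (y - v)
      = 4 * cc (x + y + 1) - (if x = 0 ∧ y = 0 then 1 else 0) := by
  have h1 : ∑ u ∈ range (j + 1), (4 * cc (u + y + 1)) * cc (x - u)
      = 4 * ∑ u ∈ range x, cc (u + y + 1) * cc (x - u) := by
    rw [Finset.mul_sum]
    have hsub : range x ⊆ range (j + 1) := by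
      intro i hi; simp at hi ⊢; omega
    rw [← Finset.sum_subset hsub]
    · apply Finset.sum_congr rfl; intro i _; ring
    · intro i _ hi
      have : x - i = 0 := by simp at hi; omega
      rw [this]; simp
  have h2 : ∑ v ∈ range j, (4 * cc (x + v + 1)) * cc (y - v)
      = 4 * ∑ v ∈ range y, cc (x + v + 1) * cc (y - v) := by
    rw [Finset.mul_sum]
    have hsub : range y ⊆ range j := by
      intro i hi; simp at hi ⊢; omega
    rw [← Finset.sum_subset hsub]
    · apply Finset.sum_congr rfl; intro i _; ring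
    · intro i _ hi
      have : y - i = 0 := by simp at hi; omega
      rw [this]; simp
  rw [h1, h2, ← mul_add, G_rec]
  split_ifs with h
  · obtain ⟨rfl, rfl⟩ := h
    simp [cc_one]
  · ring

/-- the total weight of entering the region at `(x,y)`. -/
noncomputable def ent (j x y : ℕ) : ℝ := ∑ u ∈ range (j + 1), (4 * cc (u + y + 1)) * cc (x - u)

lemma ent_nonneg (j x y : ℕ) : 0 ≤ ent j x y := by
  unfold ent
  apply Finset.sum_nonneg
  intro i _
  have h1 := cc_nonneg (i + y + 1)
  have h2 := cc_nonneg (x - i)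
  positivity

/-- First entry decomposition. -/
lemma first_entry {N j : ℕ} (hjN : j + 1 ≤ N) (hj : 1 ≤ j) (V : ℕ → ℕ → ℝ)
    (H1 : ∀ x, x < j + 1 → ∀ y, y < j → V x y =
      ∑ x' ∈ range N, cc (x' - x) * V x' y + ∑ y' ∈ range j, cc (y' - y) * V x y') :
    V 0 0 = ∑ x ∈ Ico (j + 1) N, ∑ y ∈ range j, ent j x y * V x y := by
  have hS : ∑ x ∈ range (j + 1), ∑ y ∈ range j, (4 * cc (x + y + 1)) * V x y
      = ∑ x' ∈ range N, ∑ y ∈ range j, ent j x' y * V x' y
        + ∑ x ∈ range (j + 1), ∑ y' ∈ range j,
          (∑ v ∈ range j, (4 * cc (x + v + 1)) * cc (y' - v)) * V x y' := by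
    have e1 : ∀ x ∈ range (j + 1), ∑ y ∈ range j, (4 * cc (x + y + 1)) * V x y
        = ∑ y ∈ range j, ∑ x' ∈ range N, (4 * cc (x + y + 1)) * cc (x' - x) * V x' y
          + ∑ y ∈ range j, ∑ y' ∈ range j, (4 * cc (x + y + 1)) * cc (y' - y) * V x y' := by
      intro x hx
      rw [← Finset.sum_add_distrib]
      apply Finset.sum_congr rfl
      intro y hy
      rw [H1 x (by simpa using hx) y (by simpa using hy), mul_add, Finset.mul_sum, Finset.mul_sum]
      congr 1 <;> (apply Finset.sum_congr rfl; intro z _; ring)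
    rw [Finset.sum_congr rfl e1, Finset.sum_add_distrib]
    congr 1
    · -- reorder
      have e2 : ∑ x ∈ range (j + 1), ∑ y ∈ range j, ∑ x' ∈ range N,
          (4 * cc (x + y + 1)) * cc (x' - x) * V x' y
          = ∑ x' ∈ range N, ∑ y ∈ range j, ∑ x ∈ range (j + 1),
            (4 * cc (x + y + 1)) * cc (x' - x) * V x' y := by
        calc _ = ∑ x ∈ range (j + 1), ∑ x' ∈ range N, ∑ y ∈ range j,
              (4 * cc (x + y + 1)) * cc (x' - x) * V x' y := by
              apply Finset.sum_congr rfl; intro x _; rw [Finset.sum_comm]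
          _ = ∑ x' ∈ range N, ∑ x ∈ range (j + 1), ∑ y ∈ range j,
              (4 * cc (x + y + 1)) * cc (x' - x) * V x' y := Finset.sum_comm
          _ = _ := by
              apply Finset.sum_congr rfl; intro x _; rw [Finset.sum_comm]
      rw [e2]
      apply Finset.sum_congr rfl; intro x' _
      apply Finset.sum_congr rfl; intro y _
      unfold ent
      rw [Finset.sum_mul]
    · apply Finset.sum_congr rfl; intro x _
      rw [Finset.sum_comm]
      apply Finset.sum_congr rfl; intro y' _
      rw [Finset.sum_mul]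
  have hsplit : ∑ x' ∈ range N, ∑ y ∈ range j, ent j x' y * V x' y
      = ∑ x' ∈ range (j + 1), ∑ y ∈ range j, ent j x' y * V x' y
        + ∑ x' ∈ Ico (j + 1) N, ∑ y ∈ range j, ent j x' y * V x' y := by
    rw [← Finset.sum_range_add_sum_Ico _ hjN]
  rw [hsplit] at hS
  have hcomb : ∑ x' ∈ range (j + 1), ∑ y ∈ range j, ent j x' y * V x' y
      + ∑ x ∈ range (j + 1), ∑ y' ∈ range j,
          (∑ v ∈ range j, (4 * cc (x + v + 1)) * cc (y' - v)) * V x y'
      = ∑ x ∈ range (j + 1), ∑ y ∈ range j, (4 * cc (x + y + 1)) * V x y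
        - ∑ x ∈ range (j + 1), ∑ y ∈ range j, (if x = 0 ∧ y = 0 then 1 else 0) * V x y := by
    rw [← Finset.sum_add_distrib, ← Finset.sum_sub_distrib]
    apply Finset.sum_congr rfl; intro x hx
    rw [← Finset.sum_add_distrib, ← Finset.sum_sub_distrib]
    apply Finset.sum_congr rfl; intro y hy
    rw [← add_mul, ← sub_mul]
    congr 1
    exact G_rec' (by simpa using hx) (by simpa using hy)
  have hdelta : ∑ x ∈ range (j + 1), ∑ y ∈ range j, (if x = 0 ∧ y = 0 then (1 : ℝ) else 0) * V x y
      = V 0 0 := by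
    rw [Finset.sum_eq_single 0]
    · rw [Finset.sum_eq_single 0]
      · simp
      · intro y _ hy
        simp [hy]
      · intro h; simp at h; omega
    · intro x _ hx
      apply Finset.sum_eq_zero
      intro y _
      simp [hx]
    · intro h; simp at h
  rw [hdelta] at hcomb
  linarith

/-- reindexing a convolution sum. -/
lemma shift_le {N a : ℕ} (g : ℕ → ℝ) (hg : ∀ i, 0 ≤ g i) :
    ∑ x' ∈ range N, cc (x' - a) * g x' ≤ ∑ s ∈ range N, cc s * g (a + s) := by
  have h1 : ∑ x' ∈ range N, cc (x' - a) * g x'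
      = ∑ x' ∈ (range N).filter (fun x' => a ≤ x'), cc (x' - a) * g x' := by
    rw [Finset.sum_filter]
    apply Finset.sum_congr rfl
    intro i _
    split_ifs with h
    · rfl
    · have : i - a = 0 := by omega
      rw [this]; simp
  rw [h1]
  have h2 : ∑ x' ∈ (range N).filter (fun x' => a ≤ x'), cc (x' - a) * g x'
      = ∑ s ∈ ((range N).filter (fun x' => a ≤ x')).image (fun x' => x' - a),
        cc s * g (a + s) := by
    rw [Finset.sum_image]
    · apply Finset.sum_congr rfl
      intro i hi
      have : a ≤ i := (Finset.mem_filter.1 hi).2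
      congr 2; omega
    · intro x hx y hy hxy
      have h1 : a ≤ x := (Finset.mem_filter.1 hx).2
      have h2 : a ≤ y := (Finset.mem_filter.1 hy).2
      simp only at hxy
      omega
  rw [h2]
  apply Finset.sum_le_sum_of_subset_of_nonneg
  · intro s hs
    simp only [Finset.mem_image, Finset.mem_filter, Finset.mem_range] at hs ⊢
    obtain ⟨x, hx, rfl⟩ := hs
    omega
  · intro s _ _
    exact mul_nonneg (cc_nonneg s) (hg _)

lemma sum_cc_range_le (N : ℕ) : ∑ s ∈ range N, cc s ≤ 1 / 2 := by
  have := sum_cc_sub_le 0 N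
  simpa using this

/-- The level bound: it propagates from level `1` to every level. -/
lemma level_bound {N j : ℕ} (V : ℕ → ℕ → ℕ → ℝ) (hV : ∀ k x y, 0 ≤ V k x y)
    (H2 : ∀ k, 1 ≤ k → ∀ x y, V (k + 1) x y ≤
      ∑ x' ∈ range N, cc (x' - x) * V k x' y + ∑ y' ∈ range N, cc (y' - y) * V k x y')
    (E : ℕ → ℕ → ℝ) (hE : ∀ x y, 0 ≤ E x y) (B : ℝ) (hB : 0 ≤ B)
    (H3 : ∀ l r, ∑ x ∈ Ico (j + 1) N, ∑ y ∈ range j, E x y * V 1 (x + l) (y + r) ≤ B) :
    ∀ k, 1 ≤ k → ∀ l r, ∑ x ∈ Ico (j + 1) N, ∑ y ∈ range j, E x y * V k (x + l) (y + r) ≤ B := by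
  intro k hk
  induction k, hk using Nat.le_induction with
  | base => exact H3
  | succ k hk ih =>
    intro l r
    have step : ∀ x y, V (k + 1) (x + l) (y + r) ≤
        ∑ s ∈ range N, cc s * V k (x + (l + s)) (y + r)
        + ∑ s ∈ range N, cc s * V k (x + l) (y + (r + s)) := by
      intro x y
      refine (H2 k hk (x + l) (y + r)).trans (add_le_add ?_ ?_)
      · have := shift_le (N := N) (a := x + l) (fun x' => V k x' (y + r)) (fun i => hV _ _ _)
        simpa [add_assoc] using this
      · have := shift_le (N := N) (a := y + r) (fun y' => V k (x + l) y') (fun i => hV _ _ _)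
        simpa [add_assoc] using this
    calc ∑ x ∈ Ico (j + 1) N, ∑ y ∈ range j, E x y * V (k + 1) (x + l) (y + r)
        ≤ ∑ x ∈ Ico (j + 1) N, ∑ y ∈ range j, E x y *
            (∑ s ∈ range N, cc s * V k (x + (l + s)) (y + r)
              + ∑ s ∈ range N, cc s * V k (x + l) (y + (r + s))) := by
          apply Finset.sum_le_sum; intro x _
          apply Finset.sum_le_sum; intro y _
          exact mul_le_mul_of_nonneg_left (step x y) (hE x y)
      _ = ∑ s ∈ range N, cc s * (∑ x ∈ Ico (j + 1) N, ∑ y ∈ range j,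
              E x y * V k (x + (l + s)) (y + r))
          + ∑ s ∈ range N, cc s * (∑ x ∈ Ico (j + 1) N, ∑ y ∈ range j,
              E x y * V k (x + l) (y + (r + s))) := by
          have e : ∀ (F : ℕ → ℕ → ℕ → ℝ), ∑ s ∈ range N, cc s * (∑ x ∈ Ico (j + 1) N,
              ∑ y ∈ range j, E x y * F s x y)
              = ∑ x ∈ Ico (j + 1) N, ∑ y ∈ range j, E x y * ∑ s ∈ range N, cc s * F s x y := by
            intro F
            simp only [Finset.mul_sum]
            rw [Finset.sum_comm]
            apply Finset.sum_congr rfl; intro x _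
            rw [Finset.sum_comm]
            apply Finset.sum_congr rfl; intro y _
            apply Finset.sum_congr rfl; intro s _
            ring
          rw [e (fun s x y => V k (x + (l + s)) (y + r)),
            e (fun s x y => V k (x + l) (y + (r + s))), ← Finset.sum_add_distrib]
          apply Finset.sum_congr rfl; intro x _
          rw [← Finset.sum_add_distrib]
          apply Finset.sum_congr rfl; intro y _
          ring
      _ ≤ ∑ s ∈ range N, cc s * B + ∑ s ∈ range N, cc s * B := by
          apply add_le_add <;> (apply Finset.sum_le_sum; intro s _)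
          · exact mul_le_mul_of_nonneg_left (ih _ _) (cc_nonneg s)
          · exact mul_le_mul_of_nonneg_left (ih _ _) (cc_nonneg s)
      _ ≤ B := by
          rw [← Finset.sum_mul]
          have := sum_cc_range_le N
          nlinarith

/-- bound for a product of two `cc`'s whose arguments add up to at least `2h`. -/
lemma cc_mul_le {a b h : ℕ} (ha : 1 ≤ a) (hb : 1 ≤ b) (hh : 1 ≤ h) (hab : 2 * h ≤ a + b) :
    cc a * cc b ≤ cc h * (cc a + cc b) := by
  have h1 := cc_nonneg a
  have h2 := cc_nonneg b
  have h3 := cc_nonneg h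
  rcases Nat.le_total h a with h4 | h4
  · have := cc_anti hh h4
    nlinarith
  · have h5 : h ≤ b := by omega
    have := cc_anti hh h5
    nlinarith

lemma ent_le {j h x y : ℕ} (hh : 1 ≤ h) (h2 : 2 * h ≤ j + 2) (hx : j < x) :
    ent j x y ≤ 2 * cc h * (uu y + uu (x - j - 1)) := by
  unfold ent
  have h1 : ∀ u ∈ range (j + 1), (4 * cc (u + y + 1)) * cc (x - u) ≤
      4 * cc h * (cc (u + y + 1) + cc (x - u)) := by
    intro u hu
    have hu' : u < j + 1 := by simpa using hu
    have := cc_mul_le (a := u + y + 1) (b := x - u) (h := h) (by omega) (by omega) hh (by omega)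
    nlinarith
  refine (Finset.sum_le_sum h1).trans ?_
  rw [← Finset.mul_sum, Finset.sum_add_distrib]
  have s1 : ∑ u ∈ range (j + 1), cc (u + y + 1) ≤ uu y / 2 := by
    have := sum_cc_le y (j + 1)
    refine le_trans (le_of_eq ?_) this
    apply Finset.sum_congr rfl; intro i _; congr 1; ring
  have s2 : ∑ u ∈ range (j + 1), cc (x - u) ≤ uu (x - j - 1) / 2 := by
    have := sum_cc_rev_le (x := x) (k := j + 1) (by omega)
    have e : x - (j + 1) = x - j - 1 := by omega
    rwa [e] at this
  have h3 := cc_nonneg h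
  nlinarith

lemma ent_ge {N j x y : ℕ} (hx : j < x) (hxN : x ≤ N) (hy : y + j + 1 ≤ N) :
    4 * (j + 1) * cc N ^ 2 ≤ ent j x y := by
  unfold ent
  have h1 : ∀ u ∈ range (j + 1), 4 * cc N ^ 2 ≤ (4 * cc (u + y + 1)) * cc (x - u) := by
    intro u hu
    have hu' : u < j + 1 := by simpa using hu
    have a1 := cc_anti (s := u + y + 1) (t := N) (by omega) (by omega)
    have a2 := cc_anti (s := x - u) (t := N) (by omega) (by omega)
    have a3 := cc_nonneg N
    have : cc N * cc N ≤ cc (u + y + 1) * cc (x - u) := mul_le_mul a1 a2 a3 (a3.trans a1)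
    nlinarith
  have := Finset.sum_le_sum h1
  rw [Finset.sum_const, Finset.card_range, nsmul_eq_mul] at this
  push_cast at this
  linarith

end Pool.Agent.FlipWalk
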