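import Pool.Agent.FlipWalk.Analysis

/-!
The bound for level one, and its consequence for every level.
-/

namespace Pool.Agent.FlipWalk

open Finset

lemma uu_nonneg (i : ℕ) : 0 ≤ uu i := (uu_pos i).le

lemma sum_uu_mono {a b : ℕ} (h : a ≤ b) : ∑ i ∈ range a, uu i ≤ ∑ i ∈ range b, uu i := by
  apply Finset.sum_le_sum_of_subset_of_nonneg
  · intro i hi; simp at hi ⊢; omega
  · intro i _ _; exact uu_nonneg i

lemma sum_uu_rev (m : ℕ) : ∑ i ∈ range m, uu (m - 1 - i) = ∑ i ∈ range m, uu i :=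
  Finset.sum_range_reflect uu m

lemma conv_le (m : ℕ) : ∑ i ∈ range m, uu i * uu (m - 1 - i) ≤ 1 := by
  cases m with
  | zero => simp
  | succ m =>
    have := uu_conv m
    simp only [Nat.add_sub_cancel]
    linarith

lemma exit_le {N j h x y : ℕ} (hh : 1 ≤ h) (h1 : 2 * h + (j + x) ≤ N) (hx : 2 * x < N)
    (hy : y < j) (hj : 2 * j ≤ N) :
    ∑ r ∈ (range N).filter (fun r => N ≤ 2 * r ∧ r + j ≤ N), cc (r - x) * cc (N - y - r)
      ≤ cc h / 2 * (uu ((N - 1) / 2 - x) + uu (j - 1 - y)) := by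
  have hfil : (range N).filter (fun r => N ≤ 2 * r ∧ r + j ≤ N)
      = Ico ((N + 1) / 2) (N - j + 1) := by
    ext r
    simp only [Finset.mem_filter, Finset.mem_range, Finset.mem_Ico]
    omega
  rw [hfil, Finset.sum_Ico_eq_sum_range]
  set m := N - j + 1 - (N + 1) / 2 with hm
  have hterm : ∀ i ∈ range m, cc ((N + 1) / 2 + i - x) * cc (N - y - ((N + 1) / 2 + i))
      ≤ cc h * (cc ((N + 1) / 2 + i - x) + cc (N - y - ((N + 1) / 2 + i))) := by
    intro i hi
    have hi' : i < m := by simpa using hi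
    apply cc_mul_le <;> omega
  refine (Finset.sum_le_sum hterm).trans ?_
  rw [← Finset.mul_sum, Finset.sum_add_distrib]
  have s1 : ∑ i ∈ range m, cc ((N + 1) / 2 + i - x) ≤ uu ((N - 1) / 2 - x) / 2 := by
    have := sum_cc_le ((N - 1) / 2 - x) m
    refine le_trans (le_of_eq ?_) this
    apply Finset.sum_congr rfl; intro i _; congr 1; omega
  have s2 : ∑ i ∈ range m, cc (N - y - ((N + 1) / 2 + i)) ≤ uu (j - 1 - y) / 2 := by
    have := sum_cc_le (j - 1 - y) m
    rw [← Finset.sum_range_reflect] at this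
    refine le_trans (le_of_eq ?_) this
    apply Finset.sum_congr rfl
    intro i hi
    have hi' : i < m := by simpa using hi
    congr 1; omega
  have := cc_nonneg h
  nlinarith

lemma base_bound {N j h : ℕ} (hh : 1 ≤ h) (h2 : 2 * h ≤ j + 2) (V1 : ℕ → ℕ → ℝ)
    (hV0 : ∀ x y, ¬ (2 * x < N ∧ y < j) → V1 x y = 0)
    (hV1 : ∀ x y, j < x → 2 * x < N → y < j →
      V1 x y ≤ cc h / 2 * (uu ((N - 1) / 2 - x) + uu (j - 1 - y)))
    (hjN : j ≤ N) (l r : ℕ) :
    ∑ x ∈ Ico (j + 1) N, ∑ y ∈ range j, ent j x y * V1 (x + l) (y + r) ≤ 10 * N * cc h ^ 2 := by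
  set K := (N - 1) / 2 with hK
  have hsub1 : Ico (j + 1) (K + 1 - l) ⊆ Ico (j + 1) N := by
    intro x hx
    simp only [Finset.mem_Ico] at hx ⊢
    omega
  have hsub2 : range (j - r) ⊆ range j := by
    intro x hx
    simp only [Finset.mem_range] at hx ⊢
    omega
  have e1 : ∑ x ∈ Ico (j + 1) N, ∑ y ∈ range j, ent j x y * V1 (x + l) (y + r)
      = ∑ x ∈ Ico (j + 1) (K + 1 - l), ∑ y ∈ range (j - r), ent j x y * V1 (x + l) (y + r) := by
    rw [← Finset.sum_subset hsub1]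
    · apply Finset.sum_congr rfl
      intro x _
      rw [← Finset.sum_subset hsub2]
      intro y hy hy2
      rw [hV0 (x + l) (y + r), mul_zero]
      simp only [Finset.mem_range] at hy hy2
      omega
    · intro x hx hx2
      apply Finset.sum_eq_zero
      intro y _
      rw [hV0 (x + l) (y + r), mul_zero]
      simp only [Finset.mem_Ico] at hx hx2
      omega
  rw [e1]
  have hch := cc_nonneg h
  have hterm : ∀ x ∈ Ico (j + 1) (K + 1 - l), ∀ y ∈ range (j - r),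
      ent j x y * V1 (x + l) (y + r) ≤
      cc h ^ 2 * (uu y * uu (j - r - 1 - y) + uu y * uu (K - l - x)
        + (uu (x - j - 1) * uu (j - r - 1 - y) + uu (x - j - 1) * uu (K - l - x))) := by
    intro x hx y hy
    simp only [Finset.mem_Ico, Finset.mem_range] at hx hy
    have a1 := ent_le (j := j) (h := h) (x := x) (y := y) hh h2 (by omega)
    have a2 := hV1 (x + l) (y + r) (by omega) (by omega) (by omega)
    have e2 : K - (x + l) = K - l - x := by omega
    have e3 : j - 1 - (y + r) = j - r - 1 - y := by omega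
    rw [e2, e3] at a2
    have b1 := uu_nonneg y
    have b2 := uu_nonneg (x - j - 1)
    have b3 := uu_nonneg (K - l - x)
    have b4 := uu_nonneg (j - r - 1 - y)
    have b5 := ent_nonneg j x y
    calc ent j x y * V1 (x + l) (y + r)
        ≤ ent j x y * (cc h / 2 * (uu (K - l - x) + uu (j - r - 1 - y))) :=
          mul_le_mul_of_nonneg_left a2 b5
      _ ≤ (2 * cc h * (uu y + uu (x - j - 1))) * (cc h / 2 * (uu (K - l - x) + uu (j - r - 1 - y))) := by
          apply mul_le_mul_of_nonneg_right a1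
          positivity
      _ = _ := by ring
  refine (Finset.sum_le_sum (fun x hx => Finset.sum_le_sum (hterm x hx))).trans ?_
  -- split the sums
  set SX := Ico (j + 1) (K + 1 - l) with hSX
  set SY := range (j - r) with hSY
  set S := ∑ i ∈ range N, uu i with hS
  have hS0 : 0 ≤ S := Finset.sum_nonneg (fun i _ => uu_nonneg i)
  have hS2 : S ^ 2 ≤ 4 * N := sum_uu_sq_le N
  have cX : ((SX.card : ℕ) : ℝ) ≤ N := by
    have : SX.card ≤ N := by rw [hSX, Nat.card_Ico]; omega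
    exact_mod_cast this
  have cY : ((SY.card : ℕ) : ℝ) ≤ N := by
    have : SY.card ≤ N := by rw [hSY, Finset.card_range]; omega
    exact_mod_cast this
  have t1 : ∑ y ∈ SY, uu y * uu (j - r - 1 - y) ≤ 1 := by
    exact conv_le (j - r)
  have t1' : 0 ≤ ∑ y ∈ SY, uu y * uu (j - r - 1 - y) :=
    Finset.sum_nonneg (fun i _ => mul_nonneg (uu_nonneg _) (uu_nonneg _))
  have t2 : ∑ x ∈ SX, uu (x - j - 1) * uu (K - l - x) ≤ 1 := by
    rw [hSX, Finset.sum_Ico_eq_sum_range]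
    refine le_trans (le_of_eq ?_) (conv_le (K + 1 - l - (j + 1)))
    apply Finset.sum_congr rfl
    intro i hi
    simp only [Finset.mem_range] at hi
    have q1 : j + 1 + i - j - 1 = i := by omega
    have q2 : K - l - (j + 1 + i) = K + 1 - l - (j + 1) - 1 - i := by omega
    rw [q1, q2]
  have t2' : 0 ≤ ∑ x ∈ SX, uu (x - j - 1) * uu (K - l - x) :=
    Finset.sum_nonneg (fun i _ => mul_nonneg (uu_nonneg _) (uu_nonneg _))
  have t3 : ∑ y ∈ SY, uu y ≤ S := sum_uu_mono (by omega)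
  have t3' : 0 ≤ ∑ y ∈ SY, uu y := Finset.sum_nonneg (fun i _ => uu_nonneg i)
  have t4 : ∑ y ∈ SY, uu (j - r - 1 - y) ≤ S := by
    rw [hSY, sum_uu_rev]; exact sum_uu_mono (by omega)
  have t4' : 0 ≤ ∑ y ∈ SY, uu (j - r - 1 - y) := Finset.sum_nonneg (fun i _ => uu_nonneg _)
  have t5 : ∑ x ∈ SX, uu (x - j - 1) ≤ S := by
    rw [hSX, Finset.sum_Ico_eq_sum_range]
    refine le_trans (le_of_eq ?_) (sum_uu_mono (a := K + 1 - l - (j + 1)) (b := N) (by omega))
    apply Finset.sum_congr rfl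
    intro i hi
    congr 1; omega
  have t5' : 0 ≤ ∑ x ∈ SX, uu (x - j - 1) := Finset.sum_nonneg (fun i _ => uu_nonneg _)
  have t6 : ∑ x ∈ SX, uu (K - l - x) ≤ S := by
    rw [hSX, Finset.sum_Ico_eq_sum_range]
    refine le_trans (le_of_eq ?_) (sum_uu_mono (a := K + 1 - l - (j + 1)) (b := N) (by omega))
    rw [← sum_uu_rev]
    apply Finset.sum_congr rfl
    intro i hi
    simp only [Finset.mem_range] at hi
    congr 1; omega
  have t6' : 0 ≤ ∑ x ∈ SX, uu (K - l - x) := Finset.sum_nonneg (fun i _ => uu_nonneg _)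
  have esplit : ∑ x ∈ SX, ∑ y ∈ SY,
      cc h ^ 2 * (uu y * uu (j - r - 1 - y) + uu y * uu (K - l - x)
        + (uu (x - j - 1) * uu (j - r - 1 - y) + uu (x - j - 1) * uu (K - l - x)))
      = cc h ^ 2 * ((SX.card : ℝ) * ∑ y ∈ SY, uu y * uu (j - r - 1 - y)
        + (∑ x ∈ SX, uu (K - l - x)) * ∑ y ∈ SY, uu y
        + ((∑ x ∈ SX, uu (x - j - 1)) * ∑ y ∈ SY, uu (j - r - 1 - y)
        + (SY.card : ℝ) * ∑ x ∈ SX, uu (x - j - 1) * uu (K - l - x))) := by
    have A1 : ∑ x ∈ SX, ∑ y ∈ SY, uu y * uu (j - r - 1 - y)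
        = (SX.card : ℝ) * ∑ y ∈ SY, uu y * uu (j - r - 1 - y) := by
      rw [Finset.sum_const, nsmul_eq_mul]
    have A2 : ∑ x ∈ SX, ∑ y ∈ SY, uu y * uu (K - l - x)
        = (∑ x ∈ SX, uu (K - l - x)) * ∑ y ∈ SY, uu y := by
      rw [Finset.sum_mul_sum]
      apply Finset.sum_congr rfl; intro x _
      apply Finset.sum_congr rfl; intro y _; ring
    have A3 : ∑ x ∈ SX, ∑ y ∈ SY, uu (x - j - 1) * uu (j - r - 1 - y)
        = (∑ x ∈ SX, uu (x - j - 1)) * ∑ y ∈ SY, uu (j - r - 1 - y) := by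
      rw [Finset.sum_mul_sum]
    have A4 : ∑ x ∈ SX, ∑ y ∈ SY, uu (x - j - 1) * uu (K - l - x)
        = (SY.card : ℝ) * ∑ x ∈ SX, uu (x - j - 1) * uu (K - l - x) := by
      rw [Finset.mul_sum]
      apply Finset.sum_congr rfl; intro x _
      rw [Finset.sum_const, nsmul_eq_mul]
    simp only [← Finset.mul_sum, Finset.sum_add_distrib]
    simp only [Finset.mul_sum] at A1 A2 A3 A4 ⊢
    rw [A1, A2, A3, A4]
  rw [esplit]
  have hN : (0 : ℝ) ≤ N := Nat.cast_nonneg N
  have u1 : (SX.card : ℝ) * ∑ y ∈ SY, uu y * uu (j - r - 1 - y) ≤ N * 1 :=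
    mul_le_mul cX t1 t1' hN
  have u2 : (∑ x ∈ SX, uu (K - l - x)) * ∑ y ∈ SY, uu y ≤ S * S :=
    mul_le_mul t6 t3 t3' hS0
  have u3 : (∑ x ∈ SX, uu (x - j - 1)) * ∑ y ∈ SY, uu (j - r - 1 - y) ≤ S * S :=
    mul_le_mul t5 t4 t4' hS0
  have u4 : (SY.card : ℝ) * ∑ x ∈ SX, uu (x - j - 1) * uu (K - l - x) ≤ N * 1 :=
    mul_le_mul cY t2 t2' hN
  have hc2 : 0 ≤ cc h ^ 2 := by positivity
  calc _ ≤ cc h ^ 2 * (N * 1 + S * S + (S * S + N * 1)) := by gcongr
    _ ≤ cc h ^ 2 * (10 * N) := by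
        apply mul_le_mul_of_nonneg_left _ hc2
        nlinarith
    _ = 10 * N * cc h ^ 2 := by ring

end Pool.Agent.FlipWalk
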