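import Mathlib

/-!
Scaled Catalan numbers `cc s = catalan (s-1) / 4^s` and scaled central binomial
coefficients `uu i = centralBinom i / 4^i`.
-/

namespace Pool.Agent.FlipWalk

open Finset

/-- `uu i = centralBinom i / 4^i`. -/
noncomputable def uu (i : ℕ) : ℝ := (Nat.centralBinom i : ℝ) / 4 ^ i

/-- `cc s = catalan (s-1) / 4^s` for `s ≥ 1`, and `cc 0 = 0`. -/
noncomputable def cc : ℕ → ℝ
  | 0 => 0
  | s + 1 => (catalan s : ℝ) / 4 ^ (s + 1)

@[simp] lemma cc_zero : cc 0 = 0 := rfl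

lemma cc_one : cc 1 = 1 / 4 := by simp [cc]

lemma uu_zero : uu 0 = 1 := by simp [uu]

lemma uu_pos (i : ℕ) : 0 < uu i := by
  unfold uu
  have := Nat.centralBinom_pos i
  positivity

lemma uu_succ (i : ℕ) : uu (i + 1) * (2 * i + 2) = uu i * (2 * i + 1) := by
  unfold uu
  have h := Nat.succ_mul_centralBinom_succ i
  have h' : ((i : ℝ) + 1) * (Nat.centralBinom (i + 1) : ℝ)
      = 2 * (2 * i + 1) * (Nat.centralBinom i : ℝ) := by exact_mod_cast h
  have h4 : (4 : ℝ) ^ i ≠ 0 := by positivity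
  rw [pow_succ]
  field_simp
  linarith

lemma cc_eq (s : ℕ) : cc (s + 1) = uu s / (4 * (s + 1)) := by
  have h := succ_mul_catalan_eq_centralBinom s
  have h' : ((s : ℝ) + 1) * (catalan s : ℝ) = (Nat.centralBinom s : ℝ) := by exact_mod_cast h
  unfold uu
  simp only [cc]
  rw [← h', pow_succ]
  have : (s : ℝ) + 1 ≠ 0 := by positivity
  field_simp

lemma cc_succ (s : ℕ) : cc (s + 1) = (uu s - uu (s + 1)) / 2 := by
  have h := uu_succ s
  rw [cc_eq]
  have h1 : uu (s + 1) = uu s * (2 * s + 1) / (2 * s + 2) := by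
    rw [eq_div_iff (by positivity)]; exact h
  rw [h1]
  have : (s : ℝ) + 1 ≠ 0 := by positivity
  field_simp
  ring

lemma cc_nonneg (s : ℕ) : 0 ≤ cc s := by
  cases s with
  | zero => simp
  | succ s => simp only [cc]; positivity

lemma cc_pos {s : ℕ} (hs : 1 ≤ s) : 0 < cc s := by
  obtain ⟨s, rfl⟩ : ∃ t, s = t + 1 := ⟨s - 1, by omega⟩
  rw [cc_eq]
  have := uu_pos s
  positivity

lemma uu_antitone : Antitone uu := by
  apply antitone_nat_of_succ_le
  intro n
  have h := cc_succ n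
  have h2 := cc_nonneg (n + 1)
  linarith

lemma cc_anti {s t : ℕ} (hs : 1 ≤ s) (hst : s ≤ t) : cc t ≤ cc s := by
  obtain ⟨s, rfl⟩ : ∃ r, s = r + 1 := ⟨s - 1, by omega⟩
  obtain ⟨t, rfl⟩ : ∃ r, t = r + 1 := ⟨t - 1, by omega⟩
  rw [cc_eq, cc_eq]
  have h1 : uu t ≤ uu s := uu_antitone (by omega)
  have h2 : (s : ℝ) ≤ t := by exact_mod_cast (by omega : s ≤ t)
  have h3 := uu_pos t
  have h4 := (uu_pos s).le
  gcongr

lemma cc_rec {m : ℕ} (hm : 2 ≤ m) : cc m = ∑ s ∈ range m, cc s * cc (m - s) := by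
  obtain ⟨n, rfl⟩ : ∃ r, m = r + 2 := ⟨m - 2, by omega⟩
  rw [Finset.sum_range_succ']
  simp only [cc_zero, zero_mul, add_zero]
  have h : cc (n + 2) = (catalan (n + 1) : ℝ) / 4 ^ (n + 2) := rfl
  rw [h, catalan_succ', Finset.Nat.sum_antidiagonal_eq_sum_range_succ (fun x y => catalan x * catalan y) n]
  push_cast
  rw [Finset.sum_div]
  apply Finset.sum_congr rfl
  intro i hi
  have hi' : i ≤ n := by simpa [Nat.lt_succ_iff] using hi
  have e : n + 1 - i = (n - i) + 1 := by omega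
  have e' : n + 2 - (i + 1) = (n - i) + 1 := by omega
  simp only [e, e', cc]
  have e2 : (4 : ℝ) ^ (n + 2) = 4 ^ (i + 1) * 4 ^ (n - i + 1) := by
    rw [← pow_add]; congr 1; omega
  rw [e2]
  field_simp

lemma sum_cc (m k : ℕ) : ∑ i ∈ range k, cc (m + 1 + i) = (uu m - uu (m + k)) / 2 := by
  induction k with
  | zero => simp
  | succ k ih =>
    rw [Finset.sum_range_succ, ih]
    have : m + 1 + k = (m + k) + 1 := by ring
    rw [this, cc_succ]
    have : m + (k + 1) = (m + k) + 1 := by ring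
    rw [this]
    ring

lemma sum_cc_le (m k : ℕ) : ∑ i ∈ range k, cc (m + 1 + i) ≤ uu m / 2 := by
  rw [sum_cc]
  have := uu_pos (m + k)
  linarith

/-- sums of the form `∑ cc (x' - x)` are at most `1/2`. -/
lemma sum_cc_sub_le (x k : ℕ) : ∑ i ∈ range k, cc (i - x) ≤ 1 / 2 := by
  rcases Nat.lt_or_ge x k with h | h
  · obtain ⟨r, rfl⟩ : ∃ r, k = (x + 1) + r := ⟨k - (x + 1), by omega⟩
    rw [Finset.sum_range_add]
    have h1 : ∑ i ∈ range (x + 1), cc (i - x) = 0 := by
      apply Finset.sum_eq_zero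
      intro i hi
      have : i - x = 0 := by simp at hi; omega
      rw [this]; rfl
    rw [h1, zero_add]
    have h2 : ∀ i ∈ range r, cc (x + 1 + i - x) = cc (0 + 1 + i) := by
      intro i _
      congr 1; omega
    rw [Finset.sum_congr rfl h2]
    have := sum_cc_le 0 r
    rw [uu_zero] at this
    exact this
  · have h1 : ∑ i ∈ range k, cc (i - x) = 0 := by
      apply Finset.sum_eq_zero
      intro i hi
      have : i - x = 0 := by simp at hi; omega
      rw [this]; rfl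
    rw [h1]; norm_num

/-- sums of `cc (x - i)` over `i < k` with `k ≤ x`: at most `uu (x-k)/2`. -/
lemma sum_cc_rev_le {x k : ℕ} (h : k ≤ x) : ∑ i ∈ range k, cc (x - i) ≤ uu (x - k) / 2 := by
  rw [← Finset.sum_range_reflect]
  have h2 : ∀ i ∈ range k, cc (x - (k - 1 - i)) = cc ((x - k) + 1 + i) := by
    intro i hi
    have : i < k := by simpa using hi
    congr 1; omega
  rw [Finset.sum_congr rfl h2]
  exact sum_cc_le _ _

lemma uu_sq_le (i : ℕ) : uu i ^ 2 * (3 * i + 1) ≤ 1 := by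
  induction i with
  | zero => simp [uu_zero]
  | succ i ih =>
    have h := uu_succ i
    have h1 : uu (i + 1) = uu i * (2 * i + 1) / (2 * i + 2) := by
      rw [eq_div_iff (by positivity)]; exact h
    rw [h1, div_pow, mul_pow]
    push_cast
    rw [div_mul_eq_mul_div, div_le_one (by positivity)]
    have hu : 0 ≤ uu i ^ 2 := by positivity
    have h3 : uu i ^ 2 * (2 * (i : ℝ) + 1) ^ 2 * (3 * (i + 1) + 1) ≤
        uu i ^ 2 * (3 * i + 1) * (2 * i + 2) ^ 2 := by
      have : (2 * (i : ℝ) + 1) ^ 2 * (3 * (i + 1) + 1) ≤ (3 * i + 1) * (2 * i + 2) ^ 2 := by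
        nlinarith [Nat.cast_nonneg (α := ℝ) i]
      calc _ = uu i ^ 2 * ((2 * (i : ℝ) + 1) ^ 2 * (3 * (i + 1) + 1)) := by ring
        _ ≤ uu i ^ 2 * ((3 * i + 1) * (2 * i + 2) ^ 2) := by gcongr
        _ = _ := by ring
    calc _ ≤ uu i ^ 2 * (3 * i + 1) * (2 * i + 2) ^ 2 := h3
      _ ≤ 1 * (2 * i + 2) ^ 2 := by gcongr
      _ = _ := by ring

lemma uu_sq_ge (i : ℕ) : 1 ≤ uu i ^ 2 * (4 * i + 1) := by
  induction i with
  | zero => simp [uu_zero]
  | succ i ih =>
    have h := uu_succ i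
    have h1 : uu (i + 1) = uu i * (2 * i + 1) / (2 * i + 2) := by
      rw [eq_div_iff (by positivity)]; exact h
    rw [h1, div_pow, mul_pow]
    push_cast
    rw [div_mul_eq_mul_div, one_le_div (by positivity)]
    have h3 : uu i ^ 2 * (4 * i + 1) * (2 * i + 2) ^ 2 ≤
        uu i ^ 2 * (2 * (i : ℝ) + 1) ^ 2 * (4 * (i + 1) + 1) := by
      have : (4 * i + 1) * (2 * i + 2) ^ 2 ≤ (2 * (i : ℝ) + 1) ^ 2 * (4 * (i + 1) + 1) := by
        nlinarith [Nat.cast_nonneg (α := ℝ) i]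
      calc _ = uu i ^ 2 * ((4 * i + 1) * (2 * i + 2) ^ 2) := by ring
        _ ≤ uu i ^ 2 * ((2 * (i : ℝ) + 1) ^ 2 * (4 * (i + 1) + 1)) := by gcongr
        _ = _ := by ring
    calc (2 * (i : ℝ) + 2) ^ 2 = 1 * (2 * i + 2) ^ 2 := by ring
      _ ≤ uu i ^ 2 * (4 * i + 1) * (2 * i + 2) ^ 2 := by gcongr
      _ ≤ _ := h3

lemma sum_uu (M : ℕ) : ∑ i ∈ range M, uu i = 2 * M * uu M := by
  induction M with
  | zero => simp
  | succ M ih =>
    rw [Finset.sum_range_succ, ih]
    have h := uu_succ M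
    push_cast
    linarith

lemma sum_uu_sq_le (M : ℕ) : (∑ i ∈ range M, uu i) ^ 2 ≤ 4 * M := by
  rw [sum_uu]
  have h := uu_sq_le M
  have hM : (0 : ℝ) ≤ M := Nat.cast_nonneg M
  have h2 : uu M ^ 2 * M ≤ 1 := by
    have : 0 ≤ uu M ^ 2 := by positivity
    nlinarith
  have h3 : (2 * (M : ℝ) * uu M) ^ 2 = 4 * M * (uu M ^ 2 * M) := by ring
  rw [h3]
  nlinarith

lemma uu_conv (N : ℕ) : ∑ i ∈ range (N + 1), uu i * uu (N - i) = 1 := by
  induction N with
  | zero => simp [uu_zero]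
  | succ N ih =>
    -- symmetric sum
    have hsym : ∑ i ∈ range (N + 1 + 1), (i : ℝ) * (uu i * uu (N + 1 - i)) * 2
        = (N + 1) * ∑ i ∈ range (N + 1 + 1), uu i * uu (N + 1 - i) := by
      have h1 : ∑ i ∈ range (N + 1 + 1), (i : ℝ) * (uu i * uu (N + 1 - i))
          = ∑ i ∈ range (N + 1 + 1), ((N + 1 - i : ℕ) : ℝ) * (uu i * uu (N + 1 - i)) := by
        rw [← Finset.sum_range_reflect]
        apply Finset.sum_congr rfl
        intro i hi
        have hi' : i ≤ N + 1 := by simp at hi; omega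
        have e1 : N + 1 + 1 - 1 - i = N + 1 - i := by omega
        have e2 : N + 1 - (N + 1 - i) = i := by omega
        rw [e1, e2]; ring
      have h2 : ∑ i ∈ range (N + 1 + 1), (i : ℝ) * (uu i * uu (N + 1 - i)) * 2
          = ∑ i ∈ range (N + 1 + 1), ((i : ℝ) + ((N + 1 - i : ℕ) : ℝ)) * (uu i * uu (N + 1 - i)) := by
        rw [← Finset.sum_mul, mul_two]
        nth_rewrite 2 [h1]
        rw [← Finset.sum_add_distrib]
        apply Finset.sum_congr rfl
        intro i _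
        ring
      rw [h2, Finset.mul_sum]
      apply Finset.sum_congr rfl
      intro i hi
      have hi' : i ≤ N + 1 := by simp at hi; omega
      congr 1
      rw [Nat.cast_sub hi']
      push_cast; ring
    have hshift : ∑ i ∈ range (N + 1 + 1), (i : ℝ) * (uu i * uu (N + 1 - i)) * 2
        = ∑ i ∈ range (N + 1), (2 * (i : ℝ) + 1) * (uu i * uu (N - i)) := by
      rw [Finset.sum_range_succ']
      simp only [Nat.cast_zero, zero_mul, add_zero]
      apply Finset.sum_congr rfl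
      intro i hi
      have e : N + 1 - (i + 1) = N - i := by omega
      rw [e]
      have h := uu_succ i
      push_cast
      calc ((i : ℝ) + 1) * (uu (i + 1) * uu (N - i)) * 2
          = (uu (i + 1) * (2 * i + 2)) * uu (N - i) := by ring
        _ = _ := by rw [h]; ring
    have hsym2 : ∑ i ∈ range (N + 1), (2 * (i : ℝ) + 1) * (uu i * uu (N - i))
        = (N + 1) * ∑ i ∈ range (N + 1), uu i * uu (N - i) := by
      have h1 : ∑ i ∈ range (N + 1), (i : ℝ) * (uu i * uu (N - i))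
          = ∑ i ∈ range (N + 1), ((N - i : ℕ) : ℝ) * (uu i * uu (N - i)) := by
        rw [← Finset.sum_range_reflect]
        apply Finset.sum_congr rfl
        intro i hi
        have hi' : i ≤ N := by simp at hi; omega
        have e1 : N + 1 - 1 - i = N - i := by omega
        have e2 : N - (N - i) = i := by omega
        rw [e1, e2]; ring
      have h2 : ∑ i ∈ range (N + 1), (2 * (i : ℝ) + 1) * (uu i * uu (N - i))
          = ∑ i ∈ range (N + 1), ((i : ℝ) + ((N - i : ℕ) : ℝ) + 1) * (uu i * uu (N - i)) := by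
        have : ∑ i ∈ range (N + 1), (2 * (i : ℝ) + 1) * (uu i * uu (N - i))
          = ∑ i ∈ range (N + 1), (i : ℝ) * (uu i * uu (N - i))
            + ∑ i ∈ range (N + 1), (i : ℝ) * (uu i * uu (N - i))
            + ∑ i ∈ range (N + 1), (uu i * uu (N - i)) := by
          rw [← Finset.sum_add_distrib, ← Finset.sum_add_distrib]
          apply Finset.sum_congr rfl
          intro i _; ring
        rw [this]
        nth_rewrite 2 [h1]
        rw [← Finset.sum_add_distrib, ← Finset.sum_add_distrib]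
        apply Finset.sum_congr rfl
        intro i _; ring
      rw [h2, Finset.mul_sum]
      apply Finset.sum_congr rfl
      intro i hi
      have hi' : i ≤ N := by simp at hi; omega
      congr 1
      rw [Nat.cast_sub hi']
      ring
    have key : ((N : ℝ) + 1) * ∑ i ∈ range (N + 1 + 1), uu i * uu (N + 1 - i) = (N + 1) * 1 := by
      rw [← hsym, hshift, hsym2, ih]
    exact mul_left_cancel₀ (by positivity) key

lemma cc_sq_le {s : ℕ} (hs : 1 ≤ s) : cc s ^ 2 * (16 * (s : ℝ) ^ 3) ≤ 1 := by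
  obtain ⟨t, rfl⟩ : ∃ r, s = r + 1 := ⟨s - 1, by omega⟩
  rw [cc_eq]
  have h := uu_sq_le t
  have ht : (0 : ℝ) ≤ t := Nat.cast_nonneg t
  have e : (uu t / (4 * ((t : ℝ) + 1))) ^ 2 * (16 * ((t + 1 : ℕ) : ℝ) ^ 3)
      = uu t ^ 2 * (t + 1) := by
    push_cast; field_simp; ring
  rw [e]
  have : 0 ≤ uu t ^ 2 := by positivity
  nlinarith

lemma cc_sq_ge {s : ℕ} (hs : 1 ≤ s) : 1 ≤ cc s ^ 2 * (64 * (s : ℝ) ^ 3) := by
  obtain ⟨t, rfl⟩ : ∃ r, s = r + 1 := ⟨s - 1, by omega⟩
  rw [cc_eq]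
  have h := uu_sq_ge t
  have ht : (0 : ℝ) ≤ t := Nat.cast_nonneg t
  have e : (uu t / (4 * ((t : ℝ) + 1))) ^ 2 * (64 * ((t + 1 : ℕ) : ℝ) ^ 3)
      = uu t ^ 2 * (4 * (t + 1)) := by
    push_cast; field_simp; ring
  rw [e]
  have : 0 ≤ uu t ^ 2 := by positivity
  nlinarith

end Pool.Agent.FlipWalk
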