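import Pool.Agent.FlipWalk.Poly

/-!
Flips of triangulations of the interval polygon: existence and uniqueness.
-/

namespace Pool.Agent.FlipWalk

open Finset

lemma IsTri.eq_of_subset {p q : ℕ} {T₁ T₂ : Finset (ℕ × ℕ)} (h₁ : IsTri p q T₁)
    (h₂ : IsTri p q T₂) (h : T₁ ⊆ T₂) : T₁ = T₂ := by
  apply Finset.Subset.antisymm h
  rintro ⟨a, b⟩ hab
  apply h₁.mx a b (h₂.diag a b hab)
  intro c d hcd
  have hcd' := h hcd
  have n1 := h₂.nc a b c d hab hcd'
  have n2 := h₂.nc c d a b hcd' hab
  exact ⟨n1, n2⟩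

lemma IsTri.inner {p q a b : ℕ} {T : Finset (ℕ × ℕ)} (h : IsTri p q T) (hab : (a, b) ∈ T) :
    ∃ r, a < r ∧ r < b ∧ Sd T a r ∧ Sd T r b := by
  have hD := h.diag a b hab
  unfold IsD at hD
  have hr := h.res (a := a) (b := b) (Or.inl hab) hD.1 hD.2.2.1
  obtain ⟨r, h1, h2, h3, h4⟩ := hr.apex hD.2.1
  exact ⟨r, h1, h2, h.sd_res h3, h.sd_res h4⟩

lemma IsTri.outer (m : ℕ) : ∀ (p q : ℕ) (T : Finset (ℕ × ℕ)), q - p = m → IsTri p q T →
    ∀ a b, (a, b) ∈ T →
      (∃ s, b < s ∧ s ≤ q ∧ Sd T b s ∧ ((a, s) ∈ T ∨ (a = p ∧ s = q))) ∨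
      (∃ s, p ≤ s ∧ s < a ∧ Sd T s a ∧ ((s, b) ∈ T ∨ (s = p ∧ b = q))) := by
  induction m using Nat.strong_induction_on with
  | _ m ih =>
    intro p q T hm h a b hab
    have hD := h.diag a b hab
    unfold IsD at hD
    obtain ⟨r, h1, h2, h3, h4⟩ := h.apex (by omega)
    by_cases c1 : a = p ∧ b = r
    · left
      obtain ⟨rfl, rfl⟩ := c1
      exact ⟨q, h2, le_rfl, h4, Or.inr ⟨rfl, rfl⟩⟩
    by_cases c2 : a = r ∧ b = q
    · right
      obtain ⟨rfl, rfl⟩ := c2
      exact ⟨p, le_rfl, h1, h3, Or.inr ⟨rfl, rfl⟩⟩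
    by_cases c3 : b ≤ r
    · have hpr : (p, r) ∈ T := by
        rcases h3 with h3 | h3
        · exact h3
        · omega
      have hT1 := h.res (a := p) (b := r) (Or.inl hpr) le_rfl h2.le
      have hab' : (a, b) ∈ Pool.Agent.FlipWalk.res p r T := mem_res.2 ⟨hab, by omega⟩
      rcases ih (r - p) (by omega) p r _ rfl hT1 a b hab' with ⟨s, s1, s2, s3, s4⟩ | ⟨s, s1, s2, s3, s4⟩
      · left
        refine ⟨s, s1, by omega, h.sd_res s3, Or.inl ?_⟩
        rcases s4 with s4 | s4
        · exact (mem_res.1 s4).1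
        · rw [s4.1, s4.2]; exact hpr
      · right
        refine ⟨s, s1, s2, h.sd_res s3, Or.inl ?_⟩
        rcases s4 with s4 | s4
        · exact (mem_res.1 s4).1
        · rw [s4.1, s4.2]; exact hpr
    by_cases c4 : r ≤ a
    · have hrq : (r, q) ∈ T := by
        rcases h4 with h4 | h4
        · exact h4
        · omega
      have hT1 := h.res (a := r) (b := q) (Or.inl hrq) h1.le le_rfl
      have hab' : (a, b) ∈ Pool.Agent.FlipWalk.res r q T := mem_res.2 ⟨hab, by omega⟩
      rcases ih (q - r) (by omega) r q _ rfl hT1 a b hab' with ⟨s, s1, s2, s3, s4⟩ | ⟨s, s1, s2, s3, s4⟩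
      · left
        refine ⟨s, s1, s2, h.sd_res s3, Or.inl ?_⟩
        rcases s4 with s4 | s4
        · exact (mem_res.1 s4).1
        · rw [s4.1, s4.2]; exact hrq
      · right
        refine ⟨s, by omega, s2, h.sd_res s3, Or.inl ?_⟩
        rcases s4 with s4 | s4
        · exact (mem_res.1 s4).1
        · rw [s4.1, s4.2]; exact hrq
    · exfalso
      by_cases c5 : a = p
      · rcases h4 with h4 | h4
        · exact h.nc a b r q hab h4 ⟨by omega, by omega, by omega⟩
        · omega
      · rcases h3 with h3 | h3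
        · exact h.nc p r a b h3 hab ⟨by omega, by omega, by omega⟩
        · omega

lemma IsTri.sd_nc {p q a r c d : ℕ} {T : Finset (ℕ × ℕ)} (h : IsTri p q T) (hs : Sd T a r)
    (hcd : (c, d) ∈ T) : ¬ (a < c ∧ c < r ∧ r < d) ∧ ¬ (c < a ∧ a < d ∧ d < r) := by
  rcases hs with hs | hs
  · exact ⟨h.nc a r c d hs hcd, h.nc c d a r hcd hs⟩
  · omega

/-- the flip diagonal exists, is unique, and gives a triangulation. -/
lemma IsTri.flip {p q a b : ℕ} {T : Finset (ℕ × ℕ)} (h : IsTri p q T) (hab : (a, b) ∈ T) :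
    ∃ x y, (x, y) ∉ T ∧ IsTri p q (insert (x, y) (T.erase (a, b))) ∧
      ∀ x' y', IsD p q x' y' →
        ((a < x' ∧ x' < b ∧ b < y') ∨ (x' < a ∧ a < y' ∧ y' < b)) →
        (∀ c d, (c, d) ∈ T → (c, d) ≠ (a, b) →
          ¬ (x' < c ∧ c < y' ∧ y' < d) ∧ ¬ (c < x' ∧ x' < d ∧ d < y')) → x' = x ∧ y' = y := by
  have hD := h.diag a b hab
  unfold IsD at hD
  obtain ⟨r, r1, r2, r3, r4⟩ := h.inner hab
  have main : ∀ x y, IsD p q x y →
      ((a < x ∧ x < b ∧ b < y) ∨ (x < a ∧ a < y ∧ y < b)) →
      (∀ c d, (c, d) ∈ T → (c, d) ≠ (a, b) →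
          ¬ (x < c ∧ c < y ∧ y < d) ∧ ¬ (c < x ∧ x < d ∧ d < y)) →
      (∀ x' y', IsD p q x' y' →
        ((a < x' ∧ x' < b ∧ b < y') ∨ (x' < a ∧ a < y' ∧ y' < b)) →
        (∀ c d, (c, d) ∈ T → (c, d) ≠ (a, b) →
          ¬ (x' < c ∧ c < y' ∧ y' < d) ∧ ¬ (c < x' ∧ x' < d ∧ d < y')) → x' = x ∧ y' = y) →
      ∃ x y, (x, y) ∉ T ∧ IsTri p q (insert (x, y) (T.erase (a, b))) ∧
      ∀ x' y', IsD p q x' y' →
        ((a < x' ∧ x' < b ∧ b < y') ∨ (x' < a ∧ a < y' ∧ y' < b)) →
        (∀ c d, (c, d) ∈ T → (c, d) ≠ (a, b) →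
          ¬ (x' < c ∧ c < y' ∧ y' < d) ∧ ¬ (c < x' ∧ x' < d ∧ d < y')) → x' = x ∧ y' = y := by
    intro x y hxy hcr hnc huniq
    refine ⟨x, y, ?_, ?_, huniq⟩
    · intro hmem
      have n1 := h.nc a b x y hab hmem
      have n2 := h.nc x y a b hmem hab
      omega
    · constructor
      · intro c d hcd
        rw [Finset.mem_insert] at hcd
        rcases hcd with hcd | hcd
        · rw [Prod.mk.injEq] at hcd
          rw [hcd.1, hcd.2]; exact hxy
        · exact h.diag c d (Finset.mem_of_mem_erase hcd)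
      · intro c d e f h1 h2
        rw [Finset.mem_insert] at h1 h2
        rcases h1 with h1 | h1
        · rw [Prod.mk.injEq] at h1
          rcases h2 with h2 | h2
          · rw [Prod.mk.injEq] at h2
            omega
          · have := hnc e f (Finset.mem_of_mem_erase h2) (Finset.ne_of_mem_erase h2)
            rw [h1.1, h1.2]; exact this.1
        · rcases h2 with h2 | h2
          · rw [Prod.mk.injEq] at h2
            have := hnc c d (Finset.mem_of_mem_erase h1) (Finset.ne_of_mem_erase h1)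
            rw [h2.1, h2.2]; exact this.2
          · exact h.nc c d e f (Finset.mem_of_mem_erase h1) (Finset.mem_of_mem_erase h2)
      · intro x' y' hxy' hall
        rw [Finset.mem_insert]
        by_cases hcr' : (a < x' ∧ x' < b ∧ b < y') ∨ (x' < a ∧ a < y' ∧ y' < b)
        · left
          have := huniq x' y' hxy' hcr' (fun c d hcd hne =>
            hall c d (Finset.mem_insert_of_mem (Finset.mem_erase.2 ⟨hne, hcd⟩)))
          rw [this.1, this.2]
        · right
          have hmem : (x', y') ∈ T := by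
            apply h.mx x' y' hxy'
            intro c d hcd
            by_cases hne : (c, d) = (a, b)
            · rw [Prod.mk.injEq] at hne
              rw [hne.1, hne.2]
              omega
            · exact hall c d (Finset.mem_insert_of_mem (Finset.mem_erase.2 ⟨hne, hcd⟩))
          refine Finset.mem_erase.2 ⟨?_, hmem⟩
          intro heq
          rw [Prod.mk.injEq] at heq
          have := hall x y (Finset.mem_insert_self _ _)
          omega
  rcases IsTri.outer (q - p) p q T rfl h a b hab with ⟨s, s1, s2, s3, s4⟩ | ⟨s, s1, s2, s3, s4⟩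
  · have hs4 : ∀ c d, (c, d) ∈ T → ¬ (a < c ∧ c < s ∧ s < d) ∧ ¬ (c < a ∧ a < d ∧ d < s) := by
      intro c d hcd
      have hD' := h.diag c d hcd
      unfold IsD at hD'
      rcases s4 with s4 | s4
      · exact ⟨h.nc a s c d s4 hcd, h.nc c d a s hcd s4⟩
      · omega
    refine main r s ⟨by omega, by omega, s2, by omega⟩ (Or.inl ⟨r1, r2, s1⟩) ?_ ?_
    · intro c d hcd hne
      have n1 := h.nc a b c d hab hcd
      have n2 := h.nc c d a b hcd hab
      have n3 := h.sd_nc r3 hcd
      have n4 := h.sd_nc r4 hcd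
      have n5 := h.sd_nc s3 hcd
      have n6 := hs4 c d hcd
      rw [ne_eq, Prod.mk.injEq] at hne
      omega
    · intro x' y' hxy' hcr hnc
      unfold IsD at hxy'
      have k1 : ¬ (a < x' ∧ x' < r ∧ r < y') ∧ ¬ (x' < a ∧ a < y' ∧ y' < r) := by
        rcases r3 with r3 | r3
        · have := hnc a r r3 (by rw [ne_eq, Prod.mk.injEq]; omega)
          omega
        · omega
      have k2 : ¬ (r < x' ∧ x' < b ∧ b < y') ∧ ¬ (x' < r ∧ r < y' ∧ y' < b) := by
        rcases r4 with r4 | r4
        · have := hnc r b r4 (by rw [ne_eq, Prod.mk.injEq]; omega)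
          omega
        · omega
      have k3 : ¬ (b < x' ∧ x' < s ∧ s < y') ∧ ¬ (x' < b ∧ b < y' ∧ y' < s) := by
        rcases s3 with s3 | s3
        · have := hnc b s s3 (by rw [ne_eq, Prod.mk.injEq]; omega)
          omega
        · omega
      have k4 : ¬ (a < x' ∧ x' < s ∧ s < y') ∧ ¬ (x' < a ∧ a < y' ∧ y' < s) := by
        rcases s4 with s4 | s4
        · have := hnc a s s4 (by rw [ne_eq, Prod.mk.injEq]; omega)
          omega
        · omega
      omega
  · have hs4 : ∀ c d, (c, d) ∈ T → ¬ (s < c ∧ c < b ∧ b < d) ∧ ¬ (c < s ∧ s < d ∧ d < b) := by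
      intro c d hcd
      have hD' := h.diag c d hcd
      unfold IsD at hD'
      rcases s4 with s4 | s4
      · exact ⟨h.nc s b c d s4 hcd, h.nc c d s b hcd s4⟩
      · omega
    refine main s r ⟨s1, by omega, by omega, by omega⟩ (Or.inr ⟨s2, r1, r2⟩) ?_ ?_
    · intro c d hcd hne
      have n1 := h.nc a b c d hab hcd
      have n2 := h.nc c d a b hcd hab
      have n3 := h.sd_nc r3 hcd
      have n4 := h.sd_nc r4 hcd
      have n5 := h.sd_nc s3 hcd
      have n6 := hs4 c d hcd
      rw [ne_eq, Prod.mk.injEq] at hne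
      omega
    · intro x' y' hxy' hcr hnc
      unfold IsD at hxy'
      have k1 : ¬ (a < x' ∧ x' < r ∧ r < y') ∧ ¬ (x' < a ∧ a < y' ∧ y' < r) := by
        rcases r3 with r3 | r3
        · have := hnc a r r3 (by rw [ne_eq, Prod.mk.injEq]; omega)
          omega
        · omega
      have k2 : ¬ (r < x' ∧ x' < b ∧ b < y') ∧ ¬ (x' < r ∧ r < y' ∧ y' < b) := by
        rcases r4 with r4 | r4
        · have := hnc r b r4 (by rw [ne_eq, Prod.mk.injEq]; omega)
          omega
        · omega
      have k3 : ¬ (s < x' ∧ x' < a ∧ a < y') ∧ ¬ (x' < s ∧ s < y' ∧ y' < a) := by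
        rcases s3 with s3 | s3
        · have := hnc s a s3 (by rw [ne_eq, Prod.mk.injEq]; omega)
          omega
        · omega
      have k4 : ¬ (s < x' ∧ x' < b ∧ b < y') ∧ ¬ (x' < s ∧ s < y' ∧ y' < b) := by
        rcases s4 with s4 | s4
        · have := hnc s b s4 (by rw [ne_eq, Prod.mk.injEq]; omega)
          omega
        · omega
      omega

/-- for every diagonal there is exactly one other triangulation containing the rest. -/
lemma IsTri.exists_unique_flip {p q : ℕ} {T : Finset (ℕ × ℕ)} (h : IsTri p q T) {d : ℕ × ℕ}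
    (hd : d ∈ T) : ∃ T', (IsTri p q T' ∧ T' ≠ T ∧ T.erase d ⊆ T') ∧
      ∀ T'', IsTri p q T'' → T'' ≠ T → T.erase d ⊆ T'' → T'' = T' := by
  obtain ⟨a, b⟩ := d
  obtain ⟨x, y, hxy, hT', huniq⟩ := h.flip hd
  refine ⟨insert (x, y) (T.erase (a, b)), ⟨hT', ?_, Finset.subset_insert _ _⟩, ?_⟩
  · intro heq
    exact hxy (heq ▸ Finset.mem_insert_self _ _)
  · intro T'' hT'' hne hsub
    have hnot : (a, b) ∉ T'' := by
      intro hmem
      have : T ⊆ T'' := by
        intro e he
        by_cases hed : e = (a, b)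
        · rw [hed]; exact hmem
        · exact hsub (Finset.mem_erase.2 ⟨hed, he⟩)
      exact hne (h.eq_of_subset hT'' this).symm
    have hcross : ∃ c d, (c, d) ∈ T'' ∧ ((a < c ∧ c < b ∧ b < d) ∨ (c < a ∧ a < d ∧ d < b)) := by
      by_contra hcon
      push Not at hcon
      apply hnot
      apply hT''.mx a b (h.diag a b hd)
      intro c d hcd
      have := hcon c d hcd
      constructor
      · rintro ⟨h1, h2, h3⟩
        have := this.1 h1 h2
        omega
      · rintro ⟨h1, h2, h3⟩
        have := this.2 h1 h2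
        omega
    obtain ⟨c, d, hcd, hcr⟩ := hcross
    have hcd' := huniq c d (hT''.diag c d hcd) hcr (by
      intro e f hef hne'
      have hmem : (e, f) ∈ T'' := hsub (Finset.mem_erase.2 ⟨hne', hef⟩)
      exact ⟨hT''.nc c d e f hcd hmem, hT''.nc e f c d hmem hcd⟩)
    have : insert (x, y) (T.erase (a, b)) ⊆ T'' := by
      rw [Finset.insert_subset_iff]
      refine ⟨?_, hsub⟩
      rw [← hcd'.1, ← hcd'.2]; exact hcd
    exact (hT'.eq_of_subset hT'' this).symm

lemma IsTri.card (m : ℕ) : ∀ (p q : ℕ) (T : Finset (ℕ × ℕ)), q - p = m → p < q → IsTri p q T →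
    T.card = m - 2 := by
  induction m using Nat.strong_induction_on with
  | _ m ih =>
    intro p q T hm hpq h
    rcases Nat.lt_or_ge m 2 with h2 | h2
    · have : q = p + 1 := by omega
      subst this
      have := mem_tri.2 h
      rw [tri_side, Finset.mem_singleton] at this
      rw [this, Finset.card_empty]; omega
    · obtain ⟨r, h1, h2, h3, h4⟩ := h.apex (by omega)
      have hs : ∀ {x y}, Sd T x y → ((x, y) ∈ T ∨ y = x + 1 ∨ (x = p ∧ y = q)) := by
        intro x y hxy
        rcases hxy with hxy | hxy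
        · exact Or.inl hxy
        · exact Or.inr (Or.inl hxy)
      have hT1 := h.res (hs h3) le_rfl h2.le
      have hT2 := h.res (hs h4) h1.le le_rfl
      have e := h.jn_res h1 h2 h3 h4
      have c1 := ih (r - p) (by omega) p r _ rfl h1 hT1
      have c2 := ih (q - r) (by omega) r q _ rfl h2 hT2
      rw [← e]
      unfold jn
      have d1 : Disjoint (Pool.Agent.FlipWalk.res p r T) (Pool.Agent.FlipWalk.res r q T) := by
        rw [Finset.disjoint_left]
        rintro ⟨a, b⟩ ha hb
        have x1 := hT1.diag a b ha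
        have x2 := hT2.diag a b hb
        unfold IsD at x1 x2
        omega
      have d2 : Disjoint (tp p r) (tp r q) := by
        rw [Finset.disjoint_left]
        rintro ⟨a, b⟩ ha hb
        rw [mem_tp] at ha hb
        omega
      have d3 : Disjoint (Pool.Agent.FlipWalk.res p r T ∪ Pool.Agent.FlipWalk.res r q T)
          (tp p r ∪ tp r q) := by
        rw [Finset.disjoint_left]
        rintro ⟨a, b⟩ ha hb
        rw [Finset.mem_union] at ha hb
        rw [mem_tp, mem_tp] at hb
        rcases ha with ha | ha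
        · have x1 := hT1.diag a b ha
          unfold IsD at x1
          omega
        · have x1 := hT2.diag a b ha
          unfold IsD at x1
          omega
      rw [Finset.card_union_of_disjoint d3, Finset.card_union_of_disjoint d1,
        Finset.card_union_of_disjoint d2, c1, c2]
      have t : ∀ x y, (tp x y).card = if x + 2 ≤ y then 1 else 0 := by
        intro x y
        unfold tp
        split_ifs <;> simp
      rw [t, t]
      split_ifs <;> omega

end Pool.Agent.FlipWalk
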