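import Pool.Agent.FlipWalk.Count

/-!
Bounds for the number of triangulations with a given number of chords of type A.
-/

namespace Pool.Agent.FlipWalk

open Finset

lemma W_nonneg {N j p q : ℕ} {φ : ℕ → ℝ} (hφ : ∀ n, 0 ≤ φ n) : 0 ≤ W N j φ p q := by
  unfold W
  apply div_nonneg
  · exact Finset.sum_nonneg (fun T _ => hφ _)
  · positivity

lemma entry_identity {N j : ℕ} (φ : ℕ → ℝ) (hφ0 : φ 0 = 0) (hj : 4 * j ≤ N) (hN : 8 ≤ N)
    (hj1 : 1 ≤ j) :
    W N j φ 0 N = ∑ x ∈ Ico (j + 1) N, ∑ y ∈ range j,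
      ent j x y * (if 2 * x < N ∧ y < j then W N j φ x (N - y) else 0) := by
  have h := first_entry (N := N) (j := j) (by omega) hj1
    (fun x y => if 2 * x < N ∧ y < j then W N j φ x (N - y) else 0) ?_
  · rw [← h]
    rw [if_pos (by omega), Nat.sub_zero]
  · intro x hx y hy
    rw [if_pos (by omega), W_rec φ hj hN (by omega) hy]
    have hi : iA N j x (N - y) = 0 := by
      unfold iA; rw [if_neg (by omega)]
    rw [hi]
    simp only [add_zero, hφ0, zero_mul]
    congr 1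
    · apply Finset.sum_congr rfl
      intro x' _
      congr 1
      by_cases h2 : 2 * x' < N
      · rw [if_pos h2, if_pos ⟨h2, hy⟩]
      · rw [if_neg h2, if_neg (by omega)]
    · apply Finset.sum_congr rfl
      intro y' hy'
      rw [if_pos ⟨by omega, by simpa using hy'⟩]

/-- Kronecker delta. -/
def dl (k n : ℕ) : ℝ := if n = k then 1 else 0

lemma dl_nonneg (k n : ℕ) : 0 ≤ dl k n := by
  unfold dl; split_ifs <;> norm_num

/-- the level function on the region. -/
noncomputable def VV (N j k x y : ℕ) : ℝ :=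
  if j < x ∧ 2 * x < N ∧ y < j then W N j (dl k) x (N - y) else 0

lemma VV_nonneg (N j k x y : ℕ) : 0 ≤ VV N j k x y := by
  unfold VV
  split_ifs
  · exact W_nonneg (dl_nonneg k)
  · exact le_rfl

lemma W_dl_zero {N j x y : ℕ} (hx : 2 * x < N) (hjx : j < x) (hy : y < j) (hyN : y ≤ N) :
    W N j (dl 0) x (N - y) = 0 := by
  unfold W
  rw [Finset.sum_eq_zero, zero_div]
  intro T _
  have hi : iA N j x (N - y) = 1 := by
    unfold iA; rw [if_pos (by omega)]
  unfold dl na'
  rw [hi, if_neg (by omega)]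

lemma VV_step {N j : ℕ} (hj : 4 * j ≤ N) (hN : 8 ≤ N) (k : ℕ) (hk : 1 ≤ k) (x y : ℕ) :
    VV N j (k + 1) x y ≤ ∑ x' ∈ range N, cc (x' - x) * VV N j k x' y
      + ∑ y' ∈ range N, cc (y' - y) * VV N j k x y' := by
  by_cases hQ : j < x ∧ 2 * x < N ∧ y < j
  · obtain ⟨h1, h2, h3⟩ := hQ
    have hi : iA N j x (N - y) = 1 := by
      unfold iA; rw [if_pos (by omega)]
    have e0 : VV N j (k + 1) x y = W N j (dl (k + 1)) x (N - y) := by
      unfold VV; rw [if_pos ⟨h1, h2, h3⟩]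
    rw [e0, W_rec _ hj hN h2 h3, hi]
    have e1 : (fun n => dl (k + 1) (n + 1)) = dl k := by
      funext n; unfold dl; simp
    have e2 : dl (k + 1) 1 = 0 := by
      unfold dl; rw [if_neg (by omega)]
    rw [e1, e2, zero_mul, add_zero]
    apply add_le_add
    · apply Finset.sum_le_sum
      intro x' _
      by_cases h4 : x < x'
      · unfold VV
        by_cases h5 : 2 * x' < N
        · rw [if_pos h5, if_pos ⟨by omega, h5, h3⟩]
        · rw [if_neg h5, if_neg (by omega)]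
      · have : x' - x = 0 := by omega
        rw [this]; simp
    · have e3 : ∑ y' ∈ range j, cc (y' - y) * W N j (dl k) x (N - y')
          = ∑ y' ∈ range j, cc (y' - y) * VV N j k x y' := by
        apply Finset.sum_congr rfl
        intro y' hy'
        unfold VV
        rw [if_pos ⟨h1, h2, by simpa using hy'⟩]
      rw [e3]
      apply Finset.sum_le_sum_of_subset_of_nonneg
      · intro z hz; simp only [Finset.mem_range] at hz ⊢; omega
      · intro z _ _
        exact mul_nonneg (cc_nonneg _) (VV_nonneg _ _ _ _ _)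
  · have e0 : VV N j (k + 1) x y = 0 := by
      unfold VV; rw [if_neg hQ]
    rw [e0]
    apply add_nonneg <;> (apply Finset.sum_nonneg; intro z _)
    · exact mul_nonneg (cc_nonneg _) (VV_nonneg _ _ _ _ _)
    · exact mul_nonneg (cc_nonneg _) (VV_nonneg _ _ _ _ _)

lemma VV_one {N j x y : ℕ} (hj : 4 * j ≤ N) (hN : 8 ≤ N) (h1 : j < x) (h2 : 2 * x < N)
    (h3 : y < j) : VV N j 1 x y = ex N j x y := by
  have hi : iA N j x (N - y) = 1 := by
    unfold iA; rw [if_pos (by omega)]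
  have e0 : VV N j 1 x y = W N j (dl 1) x (N - y) := by
    unfold VV; rw [if_pos ⟨h1, h2, h3⟩]
  rw [e0, W_rec _ hj hN h2 h3, hi]
  have e1 : (fun n => dl 1 (n + 1)) = dl 0 := by
    funext n; unfold dl; simp
  have e2 : dl 1 1 = 1 := by
    unfold dl; rw [if_pos rfl]
  rw [e1, e2, one_mul]
  have s1 : ∑ x' ∈ range N, cc (x' - x) *
      (if 2 * x' < N then W N j (dl 0) x' (N - y) else 0) = 0 := by
    apply Finset.sum_eq_zero
    intro x' _
    by_cases h4 : x < x'
    · by_cases h5 : 2 * x' < N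
      · rw [if_pos h5, W_dl_zero h5 (by omega) h3 (by omega), mul_zero]
      · rw [if_neg h5, mul_zero]
    · have : x' - x = 0 := by omega
      rw [this]; simp
  have s2 : ∑ y' ∈ range j, cc (y' - y) * W N j (dl 0) x (N - y') = 0 := by
    apply Finset.sum_eq_zero
    intro y' hy'
    simp only [Finset.mem_range] at hy'
    rw [W_dl_zero h2 h1 hy' (by omega), mul_zero]
  rw [s1, s2]; ring

/-- The key upper bound: level `k` has weight at most `10 N (cc h)²`. -/
lemma level_le {N j h : ℕ} (hj : 4 * j ≤ N) (hN : 8 ≤ N) (hj1 : 1 ≤ j) (hh : 1 ≤ h)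
    (h2 : 2 * h ≤ j) {k : ℕ} (hk : 1 ≤ k) :
    W N j (dl k) 0 N ≤ 10 * N * cc h ^ 2 := by
  have hdl0 : dl k 0 = 0 := by unfold dl; rw [if_neg (by omega)]
  rw [entry_identity (dl k) hdl0 hj hN hj1]
  have e1 : ∑ x ∈ Ico (j + 1) N, ∑ y ∈ range j,
      ent j x y * (if 2 * x < N ∧ y < j then W N j (dl k) x (N - y) else 0)
      = ∑ x ∈ Ico (j + 1) N, ∑ y ∈ range j, ent j x y * VV N j k (x + 0) (y + 0) := by
    apply Finset.sum_congr rfl; intro x hx
    apply Finset.sum_congr rfl; intro y hy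
    simp only [Finset.mem_Ico, Finset.mem_range] at hx hy
    unfold VV
    simp only [add_zero]
    congr 1
    by_cases h5 : 2 * x < N
    · rw [if_pos ⟨h5, hy⟩, if_pos ⟨by omega, h5, hy⟩]
    · rw [if_neg (by omega), if_neg (by omega)]
  rw [e1]
  refine level_bound (N := N) (j := j) (fun k x y => VV N j k x y)
    (fun k x y => VV_nonneg N j k x y) (fun k hk x y => VV_step hj hN k hk x y)
    (fun x y => ent j x y) (fun x y => ent_nonneg j x y) (10 * N * cc h ^ 2) (by positivity)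
    ?_ k hk 0 0
  intro l r
  refine base_bound (N := N) (j := j) (h := h) hh (by omega) (fun x y => VV N j 1 x y) ?_ ?_
    (by omega) l r
  · intro x y hxy
    unfold VV
    rw [if_neg (by omega)]
  · intro x y h3 h4 h5
    rw [VV_one hj hN h3 h4 h5]
    exact exit_le hh (by omega) h4 h5 (by omega)

/-- indicator of `1 ≤ n`. -/
def pos1 (n : ℕ) : ℝ := if 1 ≤ n then 1 else 0

lemma W_pos1 {N j x y : ℕ} (hj : 4 * j ≤ N) (hN : 8 ≤ N) (h1 : j < x) (h2 : 2 * x < N)
    (h3 : y < j) : W N j pos1 x (N - y) = cc (N - y - x) := by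
  unfold W
  have : ∀ T ∈ tri x (N - y), pos1 (na' N j x (N - y) T) = 1 := by
    intro T _
    unfold pos1 na' iA
    rw [if_pos (by omega : j < x ∧ 2 * x < N ∧ N < N - y + j), if_pos (by omega)]
  rw [Finset.sum_congr rfl this, Finset.sum_const, nsmul_eq_mul, mul_one,
    card_tri' (by omega : x < N - y)]
  field_simp

/-- The key lower bound: chords of type A exist with positive probability. -/
lemma pos_ge {N j : ℕ} (hj : 4 * j ≤ N) (hN : 8 ≤ N) (hj1 : 1 ≤ j) :
    (((N + 1) / 2 - (j + 1) : ℕ) : ℝ) * (j * (4 * (j + 1) * cc N ^ 2 * cc N))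
      ≤ W N j pos1 0 N := by
  have h0 : pos1 0 = 0 := by unfold pos1; rw [if_neg (by omega)]
  rw [entry_identity pos1 h0 hj hN hj1]
  have hsub : Ico (j + 1) ((N + 1) / 2) ⊆ Ico (j + 1) N := by
    intro x hx; simp only [Finset.mem_Ico] at hx ⊢; omega
  have hnn : ∀ x y, 0 ≤ ent j x y * (if 2 * x < N ∧ y < j then W N j pos1 x (N - y) else 0) := by
    intro x y
    apply mul_nonneg (ent_nonneg _ _ _)
    split_ifs
    · apply W_nonneg; intro n; unfold pos1; split_ifs <;> norm_num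
    · exact le_rfl
  calc (((N + 1) / 2 - (j + 1) : ℕ) : ℝ) * (j * (4 * (j + 1) * cc N ^ 2 * cc N))
      = ∑ x ∈ Ico (j + 1) ((N + 1) / 2), ∑ y ∈ range j, (4 * (j + 1) * cc N ^ 2 * cc N) := by
        rw [Finset.sum_const, Finset.sum_const, Nat.card_Ico, Finset.card_range,
          nsmul_eq_mul, nsmul_eq_mul]
    _ ≤ ∑ x ∈ Ico (j + 1) ((N + 1) / 2), ∑ y ∈ range j,
        ent j x y * (if 2 * x < N ∧ y < j then W N j pos1 x (N - y) else 0) := by
        apply Finset.sum_le_sum; intro x hx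
        apply Finset.sum_le_sum; intro y hy
        simp only [Finset.mem_Ico, Finset.mem_range] at hx hy
        rw [if_pos ⟨by omega, hy⟩, W_pos1 hj hN (by omega) (by omega) hy]
        have a1 := ent_ge (N := N) (j := j) (x := x) (y := y) (by omega) (by omega) (by omega)
        have a2 := cc_anti (s := N - y - x) (t := N) (by omega) (by omega)
        have a3 := cc_nonneg N
        exact mul_le_mul a1 a2 a3 (ent_nonneg _ _ _)
    _ ≤ _ := by
        apply Finset.sum_le_sum_of_subset_of_nonneg hsub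
        intro x _ _
        exact Finset.sum_nonneg (fun y _ => hnn x y)

/-- number of triangulations of `0..N` with exactly `k` chords of type A (`k ≥ 1`). -/
lemma level_le' {N : ℕ} (hN : 16 ≤ N) {k : ℕ} (hk : 1 ≤ k) :
    W N (N / 4) (dl k) 0 N ≤ 20480 / Real.sqrt N * cc N := by
  have h1 := level_le (N := N) (j := N / 4) (h := N / 8) (by omega) (by omega) (by omega)
    (by omega) (by omega) hk
  refine h1.trans ?_
  have hs := cc_sq_le (s := N / 8) (by omega)
  have hg := cc_sq_ge (s := N) (by omega)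
  have hNpos : (0 : ℝ) < N := by exact_mod_cast (by omega : 0 < N)
  set s := Real.sqrt N with hsdef
  have hspos : 0 < s := Real.sqrt_pos.2 hNpos
  have hs2 : s ^ 2 = N := Real.sq_sqrt hNpos.le
  have hh : (N : ℝ) / 16 ≤ ((N / 8 : ℕ) : ℝ) := by
    have : N ≤ 16 * (N / 8) := by omega
    have : (N : ℝ) ≤ 16 * ((N / 8 : ℕ) : ℝ) := by exact_mod_cast this
    linarith
  have hcc : cc (N / 8) ^ 2 * (N : ℝ) ^ 3 ≤ 256 := by
    have h3 : ((N : ℝ) / 16) ^ 3 ≤ ((N / 8 : ℕ) : ℝ) ^ 3 := by gcongr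
    have h4 : 0 ≤ cc (N / 8) ^ 2 := by positivity
    nlinarith
  have hg2 : 1 ≤ 8 * cc N * s ^ 3 := by
    have : 1 ≤ (8 * cc N * s ^ 3) ^ 2 := by
      calc (1 : ℝ) ≤ cc N ^ 2 * (64 * (N : ℝ) ^ 3) := hg
        _ = (8 * cc N * s ^ 3) ^ 2 := by rw [← hs2]; ring
    have hnn : 0 ≤ 8 * cc N * s ^ 3 := by
      have := cc_nonneg N; positivity
    nlinarith
  rw [div_mul_eq_mul_div, le_div_iff₀ hspos]
  have e : (10 * (N : ℝ) * cc (N / 8) ^ 2 * s) * (s ^ 3) = 10 * (cc (N / 8) ^ 2 * (N : ℝ) ^ 3) := by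
    rw [← hs2]; ring
  have e2 : (10 * (N : ℝ) * cc (N / 8) ^ 2 * s) * (s ^ 3) ≤ (20480 * cc N) * s ^ 3 := by
    rw [e]; nlinarith
  exact le_of_mul_le_mul_right e2 (by positivity)

lemma pos_ge' {N : ℕ} (hN : 16 ≤ N) : cc N / 4096 ≤ W N (N / 4) pos1 0 N := by
  have h1 := pos_ge (N := N) (j := N / 4) (by omega) (by omega) (by omega)
  refine le_trans ?_ h1
  have hg := cc_sq_ge (s := N) (by omega)
  have hc := cc_nonneg N
  have hNpos : (0 : ℝ) < N := by exact_mod_cast (by omega : 0 < N)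
  have a1 : (N : ℝ) / 8 ≤ (((N + 1) / 2 - (N / 4 + 1) : ℕ) : ℝ) := by
    have : N ≤ 8 * ((N + 1) / 2 - (N / 4 + 1)) := by omega
    have : (N : ℝ) ≤ 8 * (((N + 1) / 2 - (N / 4 + 1) : ℕ) : ℝ) := by exact_mod_cast this
    linarith
  have a2 : (N : ℝ) / 8 ≤ ((N / 4 : ℕ) : ℝ) := by
    have : N ≤ 8 * (N / 4) := by omega
    have : (N : ℝ) ≤ 8 * ((N / 4 : ℕ) : ℝ) := by exact_mod_cast this
    linarith
  have a3 : (N : ℝ) / 4 ≤ ((N / 4 : ℕ) : ℝ) + 1 := by
    have : N ≤ 4 * (N / 4 + 1) := by omega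
    have : (N : ℝ) ≤ 4 * (((N / 4 : ℕ) : ℝ) + 1) := by exact_mod_cast this
    linarith
  calc cc N / 4096 ≤ (N : ℝ) / 8 * ((N : ℝ) / 8 * (4 * ((N : ℝ) / 4) * cc N ^ 2 * cc N)) := by
        have e : (N : ℝ) / 8 * ((N : ℝ) / 8 * (4 * ((N : ℝ) / 4) * cc N ^ 2 * cc N))
            = (cc N ^ 2 * (64 * (N : ℝ) ^ 3)) * cc N / 4096 := by ring
        rw [e]
        have : cc N ≤ (cc N ^ 2 * (64 * (N : ℝ) ^ 3)) * cc N := by nlinarith
        linarith
    _ ≤ _ := by gcongr

end Pool.Agent.FlipWalk
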