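import Pool.Agent.FlipWalk.Defs
import Pool.Agent.FlipWalk.Flips
import Pool.Agent.FlipWalk.Levels

/-!
Basic properties of the flip walk: symmetry, row sums, reflection.
-/

namespace Pool.Agent.FlipWalk

open Finset

lemma isTriangulation_iff {n : ℕ} (hn : 1 ≤ n) {T : Finset (ℕ × ℕ)} :
    IsTriangulation n T ↔ IsTri 0 (n - 1) T := by
  constructor
  · intro h
    refine ⟨?_, ?_, ?_⟩
    · intro a b hab
      have := h.diagonal _ hab
      unfold IsDiagonal at this
      unfold IsD
      simp only at this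
      omega
    · intro a b c d hab hcd hcr
      exact h.noncrossing _ hab _ hcd (Or.inl hcr)
    · intro a b hD hcr
      apply h.maximal (a, b)
      · unfold IsD at hD
        unfold IsDiagonal
        simp only
        omega
      · rintro ⟨c, d⟩ hcd hc
        obtain ⟨h1, h2⟩ := hcr c d hcd
        rcases hc with hc | hc
        · exact h1 hc
        · exact h2 hc
  · intro h
    refine ⟨?_, ?_, ?_⟩
    · rintro ⟨a, b⟩ hab
      have := h.diag _ _ hab
      unfold IsD at this
      unfold IsDiagonal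
      simp only
      omega
    · rintro ⟨a, b⟩ hab ⟨c, d⟩ hcd hcr
      rcases hcr with hcr | hcr
      · exact h.nc _ _ _ _ hab hcd hcr
      · exact h.nc _ _ _ _ hcd hab hcr
    · rintro ⟨a, b⟩ hD hcr
      apply h.mx a b
      · unfold IsDiagonal at hD
        unfold IsD
        simp only at hD
        omega
      · intro c d hcd
        have := hcr _ hcd
        unfold Crosses at this
        simp only at this
        tauto

lemma sum_triangulation {n : ℕ} (hn : 1 ≤ n) (f : Finset (ℕ × ℕ) → ℝ) :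
    ∑ T : Triangulation n, f T.1 = ∑ T ∈ tri 0 (n - 1), f T := by
  symm
  apply Finset.sum_subtype
  intro T
  rw [mem_tri, isTriangulation_iff hn]

lemma card_triangulation {n : ℕ} (hn : 2 ≤ n) :
    (Fintype.card (Triangulation n) : ℝ) = 4 ^ (n - 1) * cc (n - 1) := by
  have h := sum_triangulation (n := n) (by omega) (fun _ => 1)
  rw [Finset.sum_const, Finset.sum_const, Finset.card_univ] at h
  simp only [nsmul_eq_mul, mul_one] at h
  rw [h, card_tri' (by omega)]
  simp

lemma card_diagonals {n : ℕ} (hn : 3 ≤ n) (T : Triangulation n) : T.1.card = n - 3 := by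
  have h := (isTriangulation_iff (by omega)).1 T.2
  rw [h.card (n - 1) 0 (n - 1) T.1 (by omega) (by omega)]
  omega

lemma sum_flip {n : ℕ} (hn : 1 ≤ n) (T : Triangulation n) {d : ℕ × ℕ} (hd : d ∈ T.1) :
    ∑ T' : Triangulation n, (if T' ≠ T ∧ T.1.erase d ⊆ T'.1 then (1 : ℝ) else 0) = 1 := by
  have h := (isTriangulation_iff hn).1 T.2
  obtain ⟨T', ⟨h1, h2, h3⟩, h4⟩ := h.exists_unique_flip hd
  have hT' : IsTriangulation n T' := (isTriangulation_iff hn).2 h1
  rw [Finset.sum_eq_single (⟨T', hT'⟩ : Triangulation n)]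
  · rw [if_pos]
    exact ⟨fun he => h2 (congrArg (fun x => x.1) he), h3⟩
  · intro U _ hU
    rw [if_neg]
    rintro ⟨u1, u2⟩
    apply hU
    apply Subtype.ext
    exact h4 U.1 ((isTriangulation_iff hn).1 U.2) (fun he => u1 (Subtype.ext he)) u2
  · intro h
    exact absurd (Finset.mem_univ _) h

lemma flipWalk_eq {n : ℕ} (T T' : Triangulation n) :
    flipWalk n T T' =
      (∑ d ∈ T.1, (if T' ≠ T ∧ T.1.erase d ⊆ T'.1 then (1 : ℝ) else 0)) / ((n : ℝ) - 3) := by
  unfold flipWalk
  rw [Finset.card_filter]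
  push_cast
  rfl

lemma flipWalk_nonneg {n : ℕ} (hn : 4 ≤ n) (T T' : Triangulation n) : 0 ≤ flipWalk n T T' := by
  unfold flipWalk
  have : (4 : ℝ) ≤ n := by exact_mod_cast hn
  apply div_nonneg (Nat.cast_nonneg _)
  linarith

lemma flipWalk_row {n : ℕ} (hn : 4 ≤ n) (T : Triangulation n) :
    ∑ T' : Triangulation n, flipWalk n T T' = 1 := by
  have h4 : (4 : ℝ) ≤ n := by exact_mod_cast hn
  simp only [flipWalk_eq]
  rw [← Finset.sum_div, Finset.sum_comm, Finset.sum_congr rfl
    (fun d hd => sum_flip (by omega) T hd), Finset.sum_const, card_diagonals (by omega) T]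
  rw [nsmul_eq_mul, mul_one, Nat.cast_sub (by omega)]
  push_cast
  exact div_self (by linarith)

lemma count_eq {n : ℕ} (hn : 4 ≤ n) (T T' : Triangulation n) :
    (T.1.filter fun d => T' ≠ T ∧ T.1.erase d ⊆ T'.1).card
      = if (T.1 \ T'.1).card = 1 then 1 else 0 := by
  have h := (isTriangulation_iff (n := n) (by omega)).1 T.2
  have h' := (isTriangulation_iff (n := n) (by omega)).1 T'.2
  have key : ∀ d, T.1.erase d ⊆ T'.1 ↔ T.1 \ T'.1 ⊆ {d} := by
    intro d
    simp only [Finset.subset_iff, Finset.mem_erase, Finset.mem_sdiff, Finset.mem_singleton]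
    constructor
    · intro h x hx
      by_contra hne
      exact hx.2 (h ⟨hne, hx.1⟩)
    · intro h x hx
      by_contra hne
      exact hx.1 (h ⟨hx.2, hne⟩)
  split_ifs with hc
  · obtain ⟨d0, hd0⟩ := Finset.card_eq_one.1 hc
    rw [Finset.card_eq_one]
    refine ⟨d0, ?_⟩
    ext d
    rw [Finset.mem_filter, key d, hd0, Finset.mem_singleton, Finset.singleton_subset_singleton]
    constructor
    · intro hd; exact hd.2.2.symm
    · intro hd
      subst hd
      have hmem : d ∈ T.1 \ T'.1 := by rw [hd0]; exact Finset.mem_singleton_self d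
      rw [Finset.mem_sdiff] at hmem
      refine ⟨hmem.1, ?_, rfl⟩
      intro he
      exact hmem.2 (he ▸ hmem.1)
  · rw [Finset.card_eq_zero, Finset.filter_eq_empty_iff]
    rintro d hd ⟨h1, h2⟩
    rw [key d] at h2
    rcases Finset.subset_singleton_iff.1 h2 with h3 | h3
    · rw [Finset.sdiff_eq_empty_iff_subset] at h3
      exact h1 (Subtype.ext (h.eq_of_subset h' h3).symm)
    · rw [h3] at hc
      exact hc (Finset.card_singleton d)

lemma flipWalk_symm {n : ℕ} (hn : 4 ≤ n) (T T' : Triangulation n) :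
    flipWalk n T T' = flipWalk n T' T := by
  unfold flipWalk
  rw [count_eq hn, count_eq hn]
  have : (T.1 \ T'.1).card = (T'.1 \ T.1).card := by
    apply Finset.card_sdiff_comm
    rw [card_diagonals (by omega), card_diagonals (by omega)]
  rw [this]

/-! ### the reflection -/

/-- reflection of a pair. -/
def rho (N : ℕ) (d : ℕ × ℕ) : ℕ × ℕ := (N - d.2, N - d.1)

lemma mem_image_rho {n : ℕ} (hn : 1 ≤ n) {T : Finset (ℕ × ℕ)} (h : IsTriangulation n T)
    {a b : ℕ} :
    (a, b) ∈ T.image (rho (n - 1)) ↔ a ≤ n - 1 ∧ b ≤ n - 1 ∧ (n - 1 - b, n - 1 - a) ∈ T := by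
  rw [Finset.mem_image]
  constructor
  · rintro ⟨⟨x, y⟩, hxy, he⟩
    have hD := h.diagonal _ hxy
    unfold IsDiagonal at hD
    unfold rho at he
    simp only [Prod.mk.injEq] at he hD
    obtain ⟨h1, h2⟩ := he
    refine ⟨by omega, by omega, ?_⟩
    have e1 : n - 1 - b = x := by omega
    have e2 : n - 1 - a = y := by omega
    rw [e1, e2]
    exact hxy
  · rintro ⟨h1, h2, h3⟩
    refine ⟨_, h3, ?_⟩
    unfold rho
    simp only [Prod.mk.injEq]
    omega

lemma refl_isTriangulation {n : ℕ} (hn : 1 ≤ n) {T : Finset (ℕ × ℕ)} (h : IsTriangulation n T) :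
    IsTriangulation n (T.image (rho (n - 1))) := by
  refine ⟨?_, ?_, ?_⟩
  · rintro ⟨a, b⟩ hab
    rw [mem_image_rho hn h] at hab
    have hD := h.diagonal _ hab.2.2
    unfold IsDiagonal at hD ⊢
    simp only at hD ⊢
    omega
  · rintro ⟨a, b⟩ hab ⟨c, d⟩ hcd hcr
    rw [mem_image_rho hn h] at hab hcd
    have hD := h.diagonal _ hab.2.2
    have hD' := h.diagonal _ hcd.2.2
    have hnc := h.noncrossing _ hab.2.2 _ hcd.2.2
    unfold IsDiagonal at hD hD'
    unfold Crosses at hnc hcr
    simp only at hD hD' hnc hcr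
    omega
  · rintro ⟨a, b⟩ hD hcr
    rw [mem_image_rho hn h]
    unfold IsDiagonal at hD
    simp only at hD
    refine ⟨by omega, by omega, ?_⟩
    apply h.maximal
    · unfold IsDiagonal
      simp only
      omega
    · rintro ⟨c, d⟩ hcd hc
      have hD' := h.diagonal _ hcd
      unfold IsDiagonal at hD'
      simp only at hD'
      have e1 : n - 1 - (n - 1 - c) = c := by omega
      have e2 : n - 1 - (n - 1 - d) = d := by omega
      have h2 := hcr (n - 1 - d, n - 1 - c) ((mem_image_rho hn h).2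
        ⟨by omega, by omega, by rw [e1, e2]; exact hcd⟩)
      unfold Crosses at h2 hc
      simp only at h2 hc
      omega

lemma image_rho_rho {n : ℕ} (hn : 1 ≤ n) {T : Finset (ℕ × ℕ)} (h : IsTriangulation n T) :
    (T.image (rho (n - 1))).image (rho (n - 1)) = T := by
  ext ⟨a, b⟩
  rw [mem_image_rho hn (refl_isTriangulation hn h), mem_image_rho hn h]
  constructor
  · rintro ⟨h1, h2, h3, h4, h5⟩
    have e1 : n - 1 - (n - 1 - a) = a := by omega
    have e2 : n - 1 - (n - 1 - b) = b := by omega
    rw [e1, e2] at h5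
    exact h5
  · intro hab
    have hD := h.diagonal _ hab
    unfold IsDiagonal at hD
    simp only at hD
    have e1 : n - 1 - (n - 1 - a) = a := by omega
    have e2 : n - 1 - (n - 1 - b) = b := by omega
    refine ⟨by omega, by omega, by omega, by omega, ?_⟩
    rw [e1, e2]
    exact hab

/-- reflection of triangulations, as a permutation. -/
def reflect (n : ℕ) (hn : 1 ≤ n) : Equiv.Perm (Triangulation n) where
  toFun T := ⟨T.1.image (rho (n - 1)), refl_isTriangulation hn T.2⟩
  invFun T := ⟨T.1.image (rho (n - 1)), refl_isTriangulation hn T.2⟩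
  left_inv T := Subtype.ext (image_rho_rho hn T.2)
  right_inv T := Subtype.ext (image_rho_rho hn T.2)

lemma reflect_val {n : ℕ} (hn : 1 ≤ n) (T : Triangulation n) :
    (reflect n hn T).1 = T.1.image (rho (n - 1)) := rfl

lemma reflect_reflect {n : ℕ} (hn : 1 ≤ n) (T : Triangulation n) :
    reflect n hn (reflect n hn T) = T := (reflect n hn).left_inv T

lemma sdiff_reflect_le {n : ℕ} (hn : 1 ≤ n) (T T' : Triangulation n) :
    (T.1 \ T'.1).card ≤ ((reflect n hn T).1 \ (reflect n hn T').1).card := by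
  apply Finset.card_le_card_of_injOn (rho (n - 1))
  · rintro ⟨a, b⟩ hab
    rw [Finset.mem_coe, Finset.mem_sdiff] at hab
    have hD := T.2.diagonal _ hab.1
    unfold IsDiagonal at hD
    simp only at hD
    have e1 : n - 1 - (n - 1 - a) = a := by omega
    have e2 : n - 1 - (n - 1 - b) = b := by omega
    rw [Finset.mem_coe, Finset.mem_sdiff, reflect_val, reflect_val]
    unfold rho
    simp only
    constructor
    · exact (mem_image_rho hn T.2).2 ⟨by omega, by omega, by rw [e1, e2]; exact hab.1⟩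
    · intro hc
      have := ((mem_image_rho hn T'.2).1 hc).2.2
      rw [e1, e2] at this
      exact hab.2 this
  · rintro ⟨a, b⟩ hab ⟨c, d⟩ hcd he
    rw [Finset.mem_coe, Finset.mem_sdiff] at hab hcd
    have hD := T.2.diagonal _ hab.1
    have hD' := T.2.diagonal _ hcd.1
    unfold IsDiagonal at hD hD'
    unfold rho at he
    simp only [Prod.mk.injEq] at hD hD' he ⊢
    omega

lemma sdiff_reflect {n : ℕ} (hn : 1 ≤ n) (T T' : Triangulation n) :
    ((reflect n hn T).1 \ (reflect n hn T').1).card = (T.1 \ T'.1).card := by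
  apply le_antisymm _ (sdiff_reflect_le hn T T')
  have := sdiff_reflect_le hn (reflect n hn T) (reflect n hn T')
  rwa [reflect_reflect, reflect_reflect] at this

lemma flipWalk_reflect {n : ℕ} (hn : 4 ≤ n) (T T' : Triangulation n) :
    flipWalk n (reflect n (by omega) T) (reflect n (by omega) T') = flipWalk n T T' := by
  unfold flipWalk
  rw [count_eq hn, count_eq hn, sdiff_reflect]

lemma na_reflect {n : ℕ} (hn : 1 ≤ n) (j : ℕ) (T : Triangulation n) :
    na (n - 1) j T.1 = 0 ∨ na (n - 1) j (reflect n hn T).1 = 0 := by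
  by_contra hcon
  push Not at hcon
  obtain ⟨h1, h2⟩ := hcon
  unfold na at h1 h2
  rw [Finset.card_ne_zero] at h1 h2
  obtain ⟨⟨a, b⟩, hab⟩ := h1
  obtain ⟨⟨c, d⟩, hcd⟩ := h2
  rw [Finset.mem_filter] at hab hcd
  rw [reflect_val, mem_image_rho hn T.2] at hcd
  have hnc := T.2.noncrossing _ hab.1 _ hcd.1.2.2
  have hD := T.2.diagonal _ hab.1
  have hD' := T.2.diagonal _ hcd.1.2.2
  unfold Crosses at hnc
  unfold IsDiagonal at hD hD'
  simp only at hnc hab hcd hD hD'
  omega

end Pool.Agent.FlipWalk
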