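import Pool.Agent.FlipWalk.Poly
import Pool.Agent.FlipWalk.Base

/-!
Counting triangulations by the number of chords of type A.
-/

namespace Pool.Agent.FlipWalk

open Finset

lemma card_tri (m : ℕ) : ∀ p, 1 ≤ m → ((tri p (p + m)).card : ℝ) = 4 ^ m * cc m := by
  induction m using Nat.strong_induction_on with
  | _ m ih =>
    intro p hm
    rcases Nat.lt_or_ge m 2 with h | h
    · obtain rfl : m = 1 := by omega
      rw [tri_side, Finset.card_singleton, cc_one]
      norm_num
    · rw [Finset.card_eq_sum_ones, Nat.cast_sum, sum_tri (by omega : p + 2 ≤ p + m)]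
      have e1 : ∀ r ∈ Finset.Ioo p (p + m),
          (∑ T₁ ∈ tri p r, ∑ T₂ ∈ tri r (p + m), ((1 : ℕ) : ℝ))
          = 4 ^ m * (cc (r - p) * cc (p + m - r)) := by
        intro r hr
        rw [Finset.mem_Ioo] at hr
        have a1 := ih (r - p) (by omega) p (by omega)
        have a2 := ih (p + m - r) (by omega) r (by omega)
        have e2 : p + (r - p) = r := by omega
        have e3 : r + (p + m - r) = p + m := by omega
        rw [e2] at a1
        rw [e3] at a2
        simp only [Nat.cast_one, Finset.sum_const, nsmul_eq_mul, mul_one]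
        rw [a1, a2]
        have e4 : (4 : ℝ) ^ m = 4 ^ (r - p) * 4 ^ (p + m - r) := by
          rw [← pow_add]; congr 1; omega
        rw [e4]; ring
      rw [Finset.sum_congr rfl e1, ← Finset.mul_sum]
      congr 1
      rw [cc_rec h]
      have e5 : Finset.Ioo p (p + m) = Finset.Ico (p + 1) (p + m) := by
        ext x; simp only [Finset.mem_Ioo, Finset.mem_Ico]; omega
      rw [e5, Finset.sum_Ico_eq_sum_range]
      obtain ⟨m', rfl⟩ : ∃ m', m = m' + 1 := ⟨m - 1, by omega⟩
      rw [Finset.sum_range_succ', cc_zero, zero_mul, add_zero]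
      have e6 : p + (m' + 1) - (p + 1) = m' := by omega
      rw [e6]
      apply Finset.sum_congr rfl
      intro i _
      congr 2 <;> omega

lemma card_tri' {p q : ℕ} (h : p < q) :
    ((tri p q).card : ℝ) = 4 ^ (q - p) * cc (q - p) := by
  have := card_tri (q - p) p (by omega)
  rwa [show p + (q - p) = q by omega] at this

/-- indicator of a chord of type A. -/
def iA (N j a b : ℕ) : ℕ := if j < a ∧ 2 * a < N ∧ N < b + j then 1 else 0

/-- number of chords of type A in `T`. -/
def na (N j : ℕ) (T : Finset (ℕ × ℕ)) : ℕ :=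
  (T.filter fun d => j < d.1 ∧ 2 * d.1 < N ∧ N < d.2 + j).card

lemma na_eq_sum (N j : ℕ) (T : Finset (ℕ × ℕ)) : na N j T = ∑ d ∈ T, iA N j d.1 d.2 := by
  unfold na iA
  rw [Finset.card_filter]

/-- number of chords of type A in `T` together with the side `(p,q)`. -/
def na' (N j p q : ℕ) (T : Finset (ℕ × ℕ)) : ℕ := na N j T + iA N j p q

lemma na_jn {N j p r q : ℕ} {T₁ T₂ : Finset (ℕ × ℕ)} (hj : 4 * j ≤ N) (hN : 8 ≤ N)
    (h₁ : IsTri p r T₁) (h₂ : IsTri r q T₂) (hpr : p < r) (hrq : r < q) :
    na' N j p q (jn p r q T₁ T₂) = na' N j p r T₁ + na' N j r q T₂ + iA N j p q := by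
  unfold na'
  simp only [na_eq_sum]
  unfold jn
  have d1 : Disjoint T₁ T₂ := by
    rw [Finset.disjoint_left]
    rintro ⟨a, b⟩ ha hb
    have x1 := h₁.diag a b ha
    have x2 := h₂.diag a b hb
    unfold IsD at x1 x2
    omega
  have d2 : Disjoint (tp p r) (tp r q) := by
    rw [Finset.disjoint_left]
    rintro ⟨a, b⟩ ha hb
    rw [mem_tp] at ha hb
    omega
  have d3 : Disjoint (T₁ ∪ T₂) (tp p r ∪ tp r q) := by
    rw [Finset.disjoint_left]
    rintro ⟨a, b⟩ ha hb
    rw [Finset.mem_union] at ha hb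
    rw [mem_tp, mem_tp] at hb
    rcases ha with ha | ha
    · have x1 := h₁.diag a b ha
      unfold IsD at x1
      omega
    · have x1 := h₂.diag a b ha
      unfold IsD at x1
      omega
  rw [Finset.sum_union d3, Finset.sum_union d1, Finset.sum_union d2]
  have t : ∀ a b, ∑ d ∈ tp a b, iA N j d.1 d.2 = iA N j a b := by
    intro a b
    unfold tp
    split_ifs with h
    · simp
    · rw [Finset.sum_empty]
      unfold iA
      rw [if_neg]
      omega
  rw [t, t]
  ring

lemma na'_zero {N j p q : ℕ} {T : Finset (ℕ × ℕ)} (h : IsTri p q T)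
    (h0 : N ≤ 2 * p ∨ q + j ≤ N) : na' N j p q T = 0 := by
  unfold na' na iA
  rw [if_neg (by omega), add_zero, Finset.card_eq_zero, Finset.filter_eq_empty_iff]
  rintro ⟨a, b⟩ hab
  have := h.diag a b hab
  unfold IsD at this
  simp only
  omega

/-- weighted count. -/
noncomputable def W (N j : ℕ) (φ : ℕ → ℝ) (p q : ℕ) : ℝ :=
  (∑ T ∈ tri p q, φ (na' N j p q T)) / 4 ^ (q - p)

lemma W_zero {N j p q : ℕ} (φ : ℕ → ℝ) (hpq : p < q) (h0 : N ≤ 2 * p ∨ q + j ≤ N) :
    W N j φ p q = φ 0 * cc (q - p) := by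
  unfold W
  have : ∀ T ∈ tri p q, φ (na' N j p q T) = φ 0 := by
    intro T hT
    rw [na'_zero (mem_tri.1 hT) h0]
  rw [Finset.sum_congr rfl this, Finset.sum_const, nsmul_eq_mul, card_tri' hpq]
  field_simp

lemma W_step {N j p q : ℕ} (φ : ℕ → ℝ) (hj : 4 * j ≤ N) (hN : 8 ≤ N) (hpq : p + 2 ≤ q) :
    W N j φ p q = ∑ r ∈ Finset.Ioo p q,
      (if 2 * r < N then cc (r - p) * W N j (fun k => φ (k + iA N j p q)) r q
        else W N j (fun k => φ (k + iA N j p q)) p r * cc (q - r)) := by
  unfold W
  rw [sum_tri hpq, Finset.sum_div]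
  apply Finset.sum_congr rfl
  intro r hr
  rw [Finset.mem_Ioo] at hr
  have e4 : (4 : ℝ) ^ (q - p) = 4 ^ (r - p) * 4 ^ (q - r) := by
    rw [← pow_add]; congr 1; omega
  have e0 : ∑ T₁ ∈ tri p r, ∑ T₂ ∈ tri r q, φ (na' N j p q (jn p r q T₁ T₂))
      = ∑ T₁ ∈ tri p r, ∑ T₂ ∈ tri r q,
        φ (na' N j p r T₁ + na' N j r q T₂ + iA N j p q) := by
    apply Finset.sum_congr rfl; intro T₁ h1
    apply Finset.sum_congr rfl; intro T₂ h2
    rw [na_jn hj hN (mem_tri.1 h1) (mem_tri.1 h2) hr.1 hr.2]
  rw [e0]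
  split_ifs with h
  · have e1 : ∑ T₁ ∈ tri p r, ∑ T₂ ∈ tri r q,
        φ (na' N j p r T₁ + na' N j r q T₂ + iA N j p q)
        = ∑ T₁ ∈ tri p r, ∑ T₂ ∈ tri r q, φ (na' N j r q T₂ + iA N j p q) := by
      apply Finset.sum_congr rfl; intro T₁ h1
      apply Finset.sum_congr rfl; intro T₂ h2
      rw [na'_zero (mem_tri.1 h1) (by omega), zero_add]
    rw [e1, Finset.sum_const, nsmul_eq_mul, card_tri' hr.1, e4]
    field_simp
  · have e1 : ∑ T₁ ∈ tri p r, ∑ T₂ ∈ tri r q,
        φ (na' N j p r T₁ + na' N j r q T₂ + iA N j p q)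
        = ∑ T₁ ∈ tri p r, ((tri r q).card : ℝ) * φ (na' N j p r T₁ + iA N j p q) := by
      apply Finset.sum_congr rfl; intro T₁ h1
      rw [← nsmul_eq_mul, ← Finset.sum_const]
      apply Finset.sum_congr rfl; intro T₂ h2
      rw [na'_zero (mem_tri.1 h2) (by omega), add_zero]
    rw [e1, ← Finset.mul_sum, card_tri' hr.2, e4]
    field_simp

/-- the exit weight. -/
noncomputable def ex (N j x y : ℕ) : ℝ :=
  ∑ r ∈ (range N).filter (fun r => N ≤ 2 * r ∧ r + j ≤ N), cc (r - x) * cc (N - y - r)

lemma W_rec {N j x y : ℕ} (φ : ℕ → ℝ) (hj : 4 * j ≤ N) (hN : 8 ≤ N) (hx : 2 * x < N)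
    (hy : y < j) :
    W N j φ x (N - y) =
      ∑ x' ∈ range N, cc (x' - x) *
        (if 2 * x' < N then W N j (fun k => φ (k + iA N j x (N - y))) x' (N - y) else 0)
      + ∑ y' ∈ range j, cc (y' - y) * W N j (fun k => φ (k + iA N j x (N - y))) x (N - y')
      + φ (iA N j x (N - y)) * ex N j x y := by
  rw [W_step φ hj hN (by omega)]
  set ψ : ℕ → ℝ := fun k => φ (k + iA N j x (N - y)) with hψ
  have hψ0 : ψ 0 = φ (iA N j x (N - y)) := by simp [hψ]
  rw [← Finset.sum_filter_add_sum_filter_not (Finset.Ioo x (N - y)) (fun r => 2 * r < N),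
    ← Finset.sum_filter_add_sum_filter_not
      ((Finset.Ioo x (N - y)).filter (fun r => ¬ 2 * r < N)) (fun r => N < r + j), add_assoc]
  congr 1
  · -- first sum
    have hsub : (Finset.Ioo x (N - y)).filter (fun r => 2 * r < N) ⊆ range N := by
      intro r hr
      simp only [Finset.mem_filter, Finset.mem_Ioo, Finset.mem_range] at hr ⊢
      omega
    rw [← Finset.sum_subset hsub]
    · apply Finset.sum_congr rfl
      intro r hr
      simp only [Finset.mem_filter, Finset.mem_Ioo] at hr
      rw [if_pos hr.2, if_pos hr.2]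
    · intro r hr hr2
      simp only [Finset.mem_filter, Finset.mem_Ioo, Finset.mem_range, not_and] at hr hr2
      by_cases h2 : 2 * r < N
      · have : r - x = 0 := by
          by_contra hne
          exact hr2 ⟨by omega, by omega⟩ h2
        rw [this]; simp
      · rw [if_neg h2, mul_zero]
  · congr 1
    · -- second sum
      have himg : ∑ y' ∈ range j, cc (y' - y) * W N j ψ x (N - y')
          = ∑ y' ∈ Finset.Ioo y j, cc (y' - y) * W N j ψ x (N - y') := by
        symm
        apply Finset.sum_subset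
        · intro z hz
          simp only [Finset.mem_Ioo, Finset.mem_range] at hz ⊢
          omega
        · intro z hz hz2
          simp only [Finset.mem_Ioo, Finset.mem_range, not_and] at hz hz2
          have : z - y = 0 := by
            by_contra hne
            exact hz2 (by omega) hz
          rw [this]; simp
      rw [himg]
      refine Finset.sum_nbij' (fun r => N - r) (fun z => N - z) ?_ ?_ ?_ ?_ ?_
      · intro r hr
        simp only [Finset.mem_filter, Finset.mem_Ioo] at hr ⊢
        omega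
      · intro z hz
        simp only [Finset.mem_filter, Finset.mem_Ioo] at hz ⊢
        omega
      · intro r hr
        simp only [Finset.mem_filter, Finset.mem_Ioo] at hr
        omega
      · intro z hz
        simp only [Finset.mem_Ioo] at hz
        omega
      · intro r hr
        simp only [Finset.mem_filter, Finset.mem_Ioo] at hr
        rw [if_neg hr.1.2]
        have e1 : N - (N - r) = r := by omega
        have e2 : N - r - y = N - y - r := by omega
        rw [e1, e2]; ring
    · -- third sum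
      unfold ex
      rw [Finset.mul_sum]
      have hset : ((Finset.Ioo x (N - y)).filter (fun r => ¬ 2 * r < N)).filter
          (fun r => ¬ N < r + j) = (range N).filter (fun r => N ≤ 2 * r ∧ r + j ≤ N) := by
        ext r
        simp only [Finset.mem_filter, Finset.mem_Ioo, Finset.mem_range]
        omega
      rw [hset]
      apply Finset.sum_congr rfl
      intro r hr
      simp only [Finset.mem_filter, Finset.mem_range] at hr
      rw [if_neg (by omega), W_zero ψ (by omega) (by omega), hψ0]
      ring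

end Pool.Agent.FlipWalk
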