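import Mathlib

/-!
The flip walk on the triangulations of a convex polygon with `n` labelled vertices,
numbered `0, 1, …, n - 1` in cyclic order.
-/

namespace Pool.Agent.FlipWalk

/-- A diagonal of the `n`-gon: a pair `(a, b)`, `a < b`, of vertices that are not neighbours
(`a` and `a + 1` are neighbours, and so are `0` and `n - 1`). -/
def IsDiagonal (n : ℕ) (d : ℕ × ℕ) : Prop :=
  d.1 + 2 ≤ d.2 ∧ d.2 < n ∧ ¬ (d.1 = 0 ∧ d.2 = n - 1)

/-- Two diagonals cross. -/
def Crosses (d e : ℕ × ℕ) : Prop :=
  (d.1 < e.1 ∧ e.1 < d.2 ∧ d.2 < e.2) ∨ (e.1 < d.1 ∧ d.1 < e.2 ∧ e.2 < d.2)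

/-- A triangulation of the `n`-gon: a maximal set of pairwise non-crossing diagonals. -/
structure IsTriangulation (n : ℕ) (T : Finset (ℕ × ℕ)) : Prop where
  diagonal : ∀ d ∈ T, IsDiagonal n d
  noncrossing : ∀ d ∈ T, ∀ e ∈ T, ¬ Crosses d e
  maximal : ∀ d, IsDiagonal n d → (∀ e ∈ T, ¬ Crosses d e) → d ∈ T

/-- The set of all triangulations of the `n`-gon. -/
abbrev Triangulation (n : ℕ) : Type := {T : Finset (ℕ × ℕ) // IsTriangulation n T}

instance finite_triangulation (n : ℕ) : Finite (Triangulation n) := by
  have h : ∀ T : Triangulation n,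
      T.1 ∈ (Finset.range n ×ˢ Finset.range n).powerset := by
    intro T
    rw [Finset.mem_powerset]
    intro d hd
    have := T.2.diagonal d hd
    unfold IsDiagonal at this
    simp only [Finset.mem_product, Finset.mem_range]
    omega
  exact Finite.of_injective
    (fun T : Triangulation n =>
      (⟨T.1, h T⟩ : {S // S ∈ (Finset.range n ×ˢ Finset.range n).powerset}))
    (fun A B hAB => Subtype.ext (congrArg (fun x => x.1) hAB))

noncomputable instance fintype_triangulation (n : ℕ) : Fintype (Triangulation n) :=
  Fintype.ofFinite _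

/-- The transition matrix of the flip walk. From `T` each of the `n - 3` diagonals `d` of `T` is
chosen with probability `1 / (n - 3)` and flipped: `T` is replaced by the other
triangulation `T'` that contains all diagonals of `T` except `d`. -/
noncomputable def flipWalk (n : ℕ) : Matrix (Triangulation n) (Triangulation n) ℝ :=
  fun T T' => (T.1.filter fun d => T' ≠ T ∧ T.1.erase d ⊆ T'.1).card / ((n : ℝ) - 3)

/-- Total variation distance between the law of the flip walk at time `t`, started at `T`, and
the uniform distribution. -/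
noncomputable def tvDist (n t : ℕ) (T : Triangulation n) : ℝ :=
  (∑ T' : Triangulation n,
    |(flipWalk n ^ t) T T' - 1 / (Fintype.card (Triangulation n) : ℝ)|) / 2

/-- The walk has mixed at time `t`: from every start the total variation distance is
at most `1/4`. -/
def Mixed (n t : ℕ) : Prop := ∀ T : Triangulation n, tvDist n t T ≤ 1 / 4

end Pool.Agent.FlipWalk
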