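import Pool.Agent.FlipWalk.Chain

/-!
Energy and variance of the test function.
-/

namespace Pool.Agent.FlipWalk

open Finset

/-- harmonic sum. -/
noncomputable def HH (m : ℕ) : ℝ := ∑ i ∈ range m, 1 / ((i : ℝ) + 1)

lemma HH_nonneg (m : ℕ) : 0 ≤ HH m := Finset.sum_nonneg (fun i _ => by positivity)

lemma HH_mono {a b : ℕ} (h : a ≤ b) : HH a ≤ HH b :=
  Finset.sum_le_sum_of_subset_of_nonneg (by simpa using h) (fun i _ _ => by positivity)

lemma na_le_of_erase {N j : ℕ} {T T' : Finset (ℕ × ℕ)} {d : ℕ × ℕ} (hsub : T.erase d ⊆ T') :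
    na N j T ≤ na N j T' + iA N j d.1 d.2 := by
  rw [na_eq_sum, na_eq_sum]
  have h1 : ∑ e ∈ T, iA N j e.1 e.2 ≤ ∑ e ∈ T.erase d, iA N j e.1 e.2 + iA N j d.1 d.2 := by
    by_cases hd : d ∈ T
    · rw [Finset.sum_erase_add _ _ hd]
    · rw [Finset.erase_eq_of_notMem hd]; exact Nat.le_add_right _ _
  have h2 : ∑ e ∈ T.erase d, iA N j e.1 e.2 ≤ ∑ e ∈ T', iA N j e.1 e.2 :=
    Finset.sum_le_sum_of_subset hsub
  omega

/-- increments of the level function. -/
noncomputable def hh (m k : ℕ) : ℝ := if 1 ≤ k ∧ k ≤ m then 1 / (k : ℝ) else 0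

lemma hh_nonneg (m k : ℕ) : 0 ≤ hh m k := by
  unfold hh; split_ifs <;> positivity

lemma HH_min_sub {m k : ℕ} : HH (min (k + 1) m) - HH (min k m) = hh m (k + 1) := by
  unfold hh
  split_ifs with h
  · have e1 : min (k + 1) m = k + 1 := by omega
    have e2 : min k m = k := by omega
    rw [e1, e2]
    unfold HH
    rw [Finset.sum_range_succ]
    push_cast
    ring
  · have e1 : min (k + 1) m = m := by omega
    have e2 : min k m = m := by omega
    rw [e1, e2, sub_self]

/-- the level function. -/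
noncomputable def gg (n m : ℕ) (T : Triangulation n) : ℝ :=
  HH (min (na (n - 1) ((n - 1) / 4) T.1) m)

lemma gg_nonneg (n m : ℕ) (T : Triangulation n) : 0 ≤ gg n m T := HH_nonneg _

/-- one-sided square. -/
noncomputable def sq1 (n m : ℕ) (T T' : Triangulation n) : ℝ :=
  if na (n - 1) ((n - 1) / 4) T'.1 < na (n - 1) ((n - 1) / 4) T.1
    then (gg n m T - gg n m T') ^ 2 else 0

lemma sq1_nonneg (n m : ℕ) (T T' : Triangulation n) : 0 ≤ sq1 n m T T' := by
  unfold sq1; split_ifs <;> positivity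

lemma sq_le_sq1 (n m : ℕ) (T T' : Triangulation n) :
    (gg n m T - gg n m T') ^ 2 = sq1 n m T T' + sq1 n m T' T := by
  unfold sq1
  rcases lt_trichotomy (na (n - 1) ((n - 1) / 4) T'.1) (na (n - 1) ((n - 1) / 4) T.1) with h | h | h
  · rw [if_pos h, if_neg (by omega)]; ring
  · rw [if_neg (by omega), if_neg (by omega)]
    unfold gg
    rw [h]; ring
  · rw [if_neg (by omega), if_pos h]; ring

lemma sq1_flip_le {n m : ℕ} {T T' : Triangulation n} {d : ℕ × ℕ}
    (hsub : T.1.erase d ⊆ T'.1) :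
    sq1 n m T T' ≤ (iA (n - 1) ((n - 1) / 4) d.1 d.2 : ℝ)
      * hh m (na (n - 1) ((n - 1) / 4) T.1) ^ 2 := by
  have h := na_le_of_erase (N := n - 1) (j := (n - 1) / 4) hsub
  unfold sq1
  split_ifs with hlt
  · have hA : iA (n - 1) ((n - 1) / 4) d.1 d.2 = 1 := by
      unfold iA at h ⊢
      split_ifs at h ⊢ with h1
      · rfl
      · omega
    have hk : na (n - 1) ((n - 1) / 4) T.1 = na (n - 1) ((n - 1) / 4) T'.1 + 1 := by omega
    rw [hA]
    unfold gg
    rw [hk, HH_min_sub]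
    simp
  · positivity

lemma row_sq1_le {n m : ℕ} (hn : 4 ≤ n) (T : Triangulation n) :
    ∑ T' : Triangulation n, flipWalk n T T' * sq1 n m T T'
      ≤ hh m (na (n - 1) ((n - 1) / 4) T.1) / ((n : ℝ) - 3) := by
  have h4 : (0 : ℝ) < (n : ℝ) - 3 := by
    have : (4 : ℝ) ≤ n := by exact_mod_cast hn
    linarith
  set k := na (n - 1) ((n - 1) / 4) T.1 with hk
  have e1 : ∑ T' : Triangulation n, flipWalk n T T' * sq1 n m T T'
      = (∑ d ∈ T.1, ∑ T' : Triangulation n,
          (if T' ≠ T ∧ T.1.erase d ⊆ T'.1 then (1 : ℝ) else 0) * sq1 n m T T') / ((n : ℝ) - 3) := by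
    rw [Finset.sum_comm, Finset.sum_div]
    apply Finset.sum_congr rfl
    intro T' _
    rw [flipWalk_eq, ← Finset.sum_mul]
    ring
  have e2 : ∀ d ∈ T.1, ∑ T' : Triangulation n,
      (if T' ≠ T ∧ T.1.erase d ⊆ T'.1 then (1 : ℝ) else 0) * sq1 n m T T'
        ≤ (iA (n - 1) ((n - 1) / 4) d.1 d.2 : ℝ) * hh m k ^ 2 := by
    intro d hd
    calc ∑ T' : Triangulation n,
        (if T' ≠ T ∧ T.1.erase d ⊆ T'.1 then (1 : ℝ) else 0) * sq1 n m T T'
        ≤ ∑ T' : Triangulation n, (if T' ≠ T ∧ T.1.erase d ⊆ T'.1 then (1 : ℝ) else 0)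
            * ((iA (n - 1) ((n - 1) / 4) d.1 d.2 : ℝ) * hh m k ^ 2) := by
          apply Finset.sum_le_sum
          intro T' _
          split_ifs with h
          · rw [one_mul, one_mul]; exact sq1_flip_le h.2
          · simp
      _ = _ := by rw [← Finset.sum_mul, sum_flip (by omega) T hd, one_mul]
  rw [e1]
  apply div_le_div_of_nonneg_right _ h4.le
  calc _ ≤ ∑ d ∈ T.1, (iA (n - 1) ((n - 1) / 4) d.1 d.2 : ℝ) * hh m k ^ 2 :=
        Finset.sum_le_sum e2
    _ = (k : ℝ) * hh m k ^ 2 := by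
        rw [← Finset.sum_mul, hk, na_eq_sum]
        push_cast
        rfl
    _ ≤ hh m k := by
        unfold hh
        split_ifs with h
        · have : (0 : ℝ) < k := by exact_mod_cast h.1
          have e : (k : ℝ) * (1 / (k : ℝ)) ^ 2 = 1 / (k : ℝ) := by field_simp
          rw [e]
        · simp

/-- number of triangulations with `na = k`. -/
noncomputable def lev (n k : ℕ) : ℝ :=
  ∑ T : Triangulation n, dl k (na (n - 1) ((n - 1) / 4) T.1)

lemma energy_gg {n m : ℕ} (hn : 4 ≤ n) :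
    (∑ T : Triangulation n, ∑ T' : Triangulation n,
      flipWalk n T T' * (gg n m T - gg n m T') ^ 2) / 2
      ≤ (∑ k ∈ Finset.Icc 1 m, lev n k / (k : ℝ)) / ((n : ℝ) - 3) := by
  have h4 : (0 : ℝ) < (n : ℝ) - 3 := by
    have : (4 : ℝ) ≤ n := by exact_mod_cast hn
    linarith
  have e1 : ∑ T : Triangulation n, ∑ T' : Triangulation n,
      flipWalk n T T' * (gg n m T - gg n m T') ^ 2
      = 2 * ∑ T : Triangulation n, ∑ T' : Triangulation n, flipWalk n T T' * sq1 n m T T' := by
    have a1 : ∑ T : Triangulation n, ∑ T' : Triangulation n, flipWalk n T T' * sq1 n m T' T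
        = ∑ T : Triangulation n, ∑ T' : Triangulation n, flipWalk n T T' * sq1 n m T T' := by
      rw [Finset.sum_comm]
      apply Finset.sum_congr rfl; intro T _
      apply Finset.sum_congr rfl; intro T' _
      rw [flipWalk_symm hn]
    have a2 : ∑ T : Triangulation n, ∑ T' : Triangulation n,
        flipWalk n T T' * (gg n m T - gg n m T') ^ 2
        = ∑ T : Triangulation n, ∑ T' : Triangulation n, flipWalk n T T' * sq1 n m T T'
          + ∑ T : Triangulation n, ∑ T' : Triangulation n, flipWalk n T T' * sq1 n m T' T := by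
      rw [← Finset.sum_add_distrib]
      apply Finset.sum_congr rfl; intro T _
      rw [← Finset.sum_add_distrib]
      apply Finset.sum_congr rfl; intro T' _
      rw [sq_le_sq1]; ring
    rw [a2, a1]; ring
  rw [e1, mul_div_cancel_left₀ _ (by norm_num : (2 : ℝ) ≠ 0)]
  calc _ ≤ ∑ T : Triangulation n, hh m (na (n - 1) ((n - 1) / 4) T.1) / ((n : ℝ) - 3) :=
        Finset.sum_le_sum (fun T _ => row_sq1_le hn T)
    _ = (∑ k ∈ Finset.Icc 1 m, lev n k / (k : ℝ)) / ((n : ℝ) - 3) := by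
        rw [← Finset.sum_div]
        congr 1
        unfold lev
        simp only [Finset.sum_div]
        rw [Finset.sum_comm]
        apply Finset.sum_congr rfl
        intro T _
        unfold dl hh
        simp only [ite_div, zero_div]
        rw [Finset.sum_ite_eq]
        simp only [Finset.mem_Icc]

/-- the antisymmetrised level function. -/
noncomputable def ff (n m : ℕ) (hn : 1 ≤ n) (T : Triangulation n) : ℝ :=
  gg n m T - gg n m (reflect n hn T)

lemma sum_ff (n m : ℕ) (hn : 1 ≤ n) : ∑ T : Triangulation n, ff n m hn T = 0 := by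
  unfold ff
  rw [Finset.sum_sub_distrib, Equiv.sum_comp (reflect n hn) (fun T => gg n m T), sub_self]

lemma sum_ff_sq (n m : ℕ) (hn : 1 ≤ n) :
    ∑ T : Triangulation n, ff n m hn T ^ 2 = 2 * ∑ T : Triangulation n, gg n m T ^ 2 := by
  have h0 : ∀ T : Triangulation n, gg n m T * gg n m (reflect n hn T) = 0 := by
    intro T
    unfold gg
    rcases na_reflect hn ((n - 1) / 4) T with h | h
    · rw [h]; simp [HH]
    · rw [h]; simp [HH]
  have h1 : ∀ T : Triangulation n, ff n m hn T ^ 2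
      = gg n m T ^ 2 + gg n m (reflect n hn T) ^ 2 := by
    intro T
    unfold ff
    have := h0 T
    nlinarith
  rw [Finset.sum_congr rfl (fun T _ => h1 T), Finset.sum_add_distrib,
    Equiv.sum_comp (reflect n hn) (fun T => gg n m T ^ 2)]
  ring

lemma energy_ff {n m : ℕ} (hn : 4 ≤ n) :
    (∑ T : Triangulation n, ∑ T' : Triangulation n,
      flipWalk n T T' * (ff n m (by omega) T - ff n m (by omega) T') ^ 2) / 2
      ≤ 4 * ((∑ k ∈ Finset.Icc 1 m, lev n k / (k : ℝ)) / ((n : ℝ) - 3)) := by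
  have h1 := energy_gg (n := n) (m := m) hn
  have hn1 : 1 ≤ n := by omega
  have e1 : ∑ T : Triangulation n, ∑ T' : Triangulation n,
      flipWalk n T T' * (gg n m (reflect n hn1 T) - gg n m (reflect n hn1 T')) ^ 2
      = ∑ T : Triangulation n, ∑ T' : Triangulation n,
      flipWalk n T T' * (gg n m T - gg n m T') ^ 2 := by
    rw [← Equiv.sum_comp (reflect n hn1) (fun T => ∑ T' : Triangulation n,
      flipWalk n T T' * (gg n m T - gg n m T') ^ 2)]
    apply Finset.sum_congr rfl; intro T _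
    rw [← Equiv.sum_comp (reflect n hn1) (fun T' =>
      flipWalk n (reflect n hn1 T) T' * (gg n m (reflect n hn1 T) - gg n m T') ^ 2)]
    apply Finset.sum_congr rfl; intro T' _
    rw [flipWalk_reflect hn]
  have e2 : ∑ T : Triangulation n, ∑ T' : Triangulation n,
      flipWalk n T T' * (ff n m hn1 T - ff n m hn1 T') ^ 2
      ≤ 2 * (∑ T : Triangulation n, ∑ T' : Triangulation n,
        flipWalk n T T' * (gg n m T - gg n m T') ^ 2)
        + 2 * (∑ T : Triangulation n, ∑ T' : Triangulation n,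
        flipWalk n T T' * (gg n m (reflect n hn1 T) - gg n m (reflect n hn1 T')) ^ 2) := by
    rw [Finset.mul_sum, Finset.mul_sum, ← Finset.sum_add_distrib]
    apply Finset.sum_le_sum; intro T _
    rw [Finset.mul_sum, Finset.mul_sum, ← Finset.sum_add_distrib]
    apply Finset.sum_le_sum; intro T' _
    have hP := flipWalk_nonneg hn T T'
    unfold ff
    set a := gg n m T
    set b := gg n m T'
    set c := gg n m (reflect n hn1 T)
    set d := gg n m (reflect n hn1 T')
    have : (a - c - (b - d)) ^ 2 ≤ 2 * (a - b) ^ 2 + 2 * (c - d) ^ 2 := by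
      nlinarith [sq_nonneg ((a - b) + (c - d))]
    calc flipWalk n T T' * (a - c - (b - d)) ^ 2
        ≤ flipWalk n T T' * (2 * (a - b) ^ 2 + 2 * (c - d) ^ 2) := by gcongr
      _ = _ := by ring
  rw [e1] at e2
  linarith

/-! ### counting -/

lemma sum_na_eq {n : ℕ} (hn : 2 ≤ n) (φ : ℕ → ℝ) :
    ∑ T : Triangulation n, φ (na (n - 1) ((n - 1) / 4) T.1)
      = 4 ^ (n - 1) * W (n - 1) ((n - 1) / 4) φ 0 (n - 1) := by
  rw [sum_triangulation (n := n) (by omega) (fun T => φ (na (n - 1) ((n - 1) / 4) T))]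
  unfold W
  rw [Nat.sub_zero, mul_div_cancel₀ _ (by positivity)]
  apply Finset.sum_congr rfl
  intro T _
  unfold na'
  have : iA (n - 1) ((n - 1) / 4) 0 (n - 1) = 0 := by
    unfold iA
    rw [if_neg]; omega
  rw [this, add_zero]

lemma lev_le {n : ℕ} (hn : 17 ≤ n) {k : ℕ} (hk : 1 ≤ k) :
    lev n k ≤ 20480 / Real.sqrt ((n - 1 : ℕ) : ℝ) * (Fintype.card (Triangulation n) : ℝ) := by
  unfold lev
  rw [sum_na_eq (by omega) (dl k), card_triangulation (by omega)]
  have h := level_le' (N := n - 1) (by omega) hk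
  calc (4 : ℝ) ^ (n - 1) * W (n - 1) ((n - 1) / 4) (dl k) 0 (n - 1)
      ≤ 4 ^ (n - 1) * (20480 / Real.sqrt ((n - 1 : ℕ) : ℝ) * cc (n - 1)) := by gcongr
    _ = _ := by ring

lemma pos_count {n : ℕ} (hn : 17 ≤ n) :
    (Fintype.card (Triangulation n) : ℝ) / 4096
      ≤ ∑ T : Triangulation n, pos1 (na (n - 1) ((n - 1) / 4) T.1) := by
  rw [sum_na_eq (by omega) pos1, card_triangulation (by omega)]
  have h := pos_ge' (N := n - 1) (by omega)
  calc (4 : ℝ) ^ (n - 1) * cc (n - 1) / 4096 = 4 ^ (n - 1) * (cc (n - 1) / 4096) := by ring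
    _ ≤ _ := by gcongr

lemma high_count {n m : ℕ} (hn : 17 ≤ n) (hm1 : 1 ≤ m)
    (hm : ((m : ℝ) - 1) * (20480 / Real.sqrt ((n - 1 : ℕ) : ℝ)) ≤ 1 / 8192) :
    (Fintype.card (Triangulation n) : ℝ) / 8192
      ≤ ∑ T : Triangulation n, (if m ≤ na (n - 1) ((n - 1) / 4) T.1 then (1 : ℝ) else 0) := by
  have h1 := pos_count hn
  have h2 : ∑ k ∈ Finset.Ico 1 m, lev n k
      ≤ ((m : ℝ) - 1) * (20480 / Real.sqrt ((n - 1 : ℕ) : ℝ)
          * (Fintype.card (Triangulation n) : ℝ)) := by
    calc ∑ k ∈ Finset.Ico 1 m, lev n k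
        ≤ ∑ _k ∈ Finset.Ico 1 m, (20480 / Real.sqrt ((n - 1 : ℕ) : ℝ)
          * (Fintype.card (Triangulation n) : ℝ)) := by
          apply Finset.sum_le_sum
          intro k hk
          rw [Finset.mem_Ico] at hk
          exact lev_le hn hk.1
      _ = _ := by
          rw [Finset.sum_const, Nat.card_Ico, nsmul_eq_mul, Nat.cast_sub hm1]
          push_cast; ring
  have h3 : ∑ T : Triangulation n, pos1 (na (n - 1) ((n - 1) / 4) T.1)
      = ∑ T : Triangulation n, (if m ≤ na (n - 1) ((n - 1) / 4) T.1 then (1 : ℝ) else 0)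
        + ∑ k ∈ Finset.Ico 1 m, lev n k := by
    unfold lev
    rw [Finset.sum_comm, ← Finset.sum_add_distrib]
    apply Finset.sum_congr rfl
    intro T _
    unfold pos1 dl
    rw [Finset.sum_ite_eq]
    simp only [Finset.mem_Ico]
    split_ifs <;> first | omega | norm_num
  have h4 : ((m : ℝ) - 1) * (20480 / Real.sqrt ((n - 1 : ℕ) : ℝ)
          * (Fintype.card (Triangulation n) : ℝ))
      ≤ 1 / 8192 * (Fintype.card (Triangulation n) : ℝ) := by
    rw [← mul_assoc]
    exact mul_le_mul_of_nonneg_right hm (Nat.cast_nonneg _)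
  linarith

lemma sum_gg_sq_ge {n m : ℕ} (hn : 17 ≤ n) (hm1 : 1 ≤ m)
    (hm : ((m : ℝ) - 1) * (20480 / Real.sqrt ((n - 1 : ℕ) : ℝ)) ≤ 1 / 8192) :
    (Fintype.card (Triangulation n) : ℝ) / 8192 * HH m ^ 2
      ≤ ∑ T : Triangulation n, gg n m T ^ 2 := by
  calc (Fintype.card (Triangulation n) : ℝ) / 8192 * HH m ^ 2
      ≤ (∑ T : Triangulation n,
          (if m ≤ na (n - 1) ((n - 1) / 4) T.1 then (1 : ℝ) else 0)) * HH m ^ 2 := by
        gcongr
        exact high_count hn hm1 hm
    _ = ∑ T : Triangulation n,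
          (if m ≤ na (n - 1) ((n - 1) / 4) T.1 then (1 : ℝ) else 0) * HH m ^ 2 := by
        rw [Finset.sum_mul]
    _ ≤ _ := by
        apply Finset.sum_le_sum
        intro T _
        unfold gg
        split_ifs with h
        · rw [min_eq_right h, one_mul]
        · rw [zero_mul]; positivity

end Pool.Agent.FlipWalk
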