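import Mathlib

/-!
A lower bound for the total variation mixing time of a symmetric chain by a test function.
-/

namespace Pool.Agent.FlipWalk

open Finset Matrix

variable {S : Type*} [Fintype S] [DecidableEq S]

lemma pow_row_sum {P : Matrix S S ℝ} (hrow : ∀ a, ∑ b, P a b = 1) (t : ℕ) (a : S) :
    ∑ b, (P ^ t) a b = 1 := by
  induction t generalizing a with
  | zero => simp [Matrix.one_apply]
  | succ t ih =>
    rw [pow_succ]
    simp only [Matrix.mul_apply]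
    rw [Finset.sum_comm]
    have : ∀ j, ∑ i, (P ^ t) a j * P j i = (P ^ t) a j := by
      intro j
      rw [← Finset.mul_sum, hrow, mul_one]
    rw [Finset.sum_congr rfl (fun j _ => this j), ih]

lemma sum_mulVec {P : Matrix S S ℝ} (hsym : ∀ a b, P a b = P b a)
    (hrow : ∀ a, ∑ b, P a b = 1) (g : S → ℝ) : ∑ a, (P *ᵥ g) a = ∑ a, g a := by
  simp only [Matrix.mulVec, dotProduct]
  rw [Finset.sum_comm]
  apply Finset.sum_congr rfl
  intro b _
  have : ∑ a, P a b * g b = (∑ a, P b a) * g b := by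
    rw [Finset.sum_mul]
    exact Finset.sum_congr rfl (fun a _ => by rw [hsym])
  rw [this, hrow, one_mul]

lemma sum_pow_mulVec {P : Matrix S S ℝ} (hsym : ∀ a b, P a b = P b a)
    (hrow : ∀ a, ∑ b, P a b = 1) (g : S → ℝ) (t : ℕ) : ∑ a, ((P ^ t) *ᵥ g) a = ∑ a, g a := by
  induction t generalizing g with
  | zero => simp
  | succ t ih =>
    rw [pow_succ, ← Matrix.mulVec_mulVec, ih, sum_mulVec hsym hrow]

lemma contract {P : Matrix S S ℝ} {t : ℕ} {c : ℝ} {g : S → ℝ} {M : ℝ} (hg : ∑ a, g a = 0)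
    (hM : ∀ a, |g a| ≤ M)
    (hmix : ∀ a, (∑ b, |(P ^ t) a b - c|) / 2 ≤ 1 / 4) (a : S) :
    |((P ^ t) *ᵥ g) a| ≤ M / 2 := by
  have h0 : ((P ^ t) *ᵥ g) a = ∑ b, ((P ^ t) a b - c) * g b := by
    simp only [Matrix.mulVec, dotProduct]
    have : ∑ b, ((P ^ t) a b - c) * g b = ∑ b, (P ^ t) a b * g b - c * ∑ b, g b := by
      rw [Finset.mul_sum, ← Finset.sum_sub_distrib]
      exact Finset.sum_congr rfl (fun b _ => by ring)
    rw [this, hg]; ring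
  rw [h0]
  calc |∑ b, ((P ^ t) a b - c) * g b| ≤ ∑ b, |((P ^ t) a b - c) * g b| :=
        Finset.abs_sum_le_sum_abs _ _
    _ ≤ ∑ b, |(P ^ t) a b - c| * M := by
        apply Finset.sum_le_sum
        intro b _
        rw [abs_mul]
        exact mul_le_mul_of_nonneg_left (hM b) (abs_nonneg _)
    _ = (∑ b, |(P ^ t) a b - c|) * M := by rw [Finset.sum_mul]
    _ ≤ 1 / 2 * M := by
        have h1 := hmix a
        have hMnn : 0 ≤ M := (abs_nonneg _).trans (hM a)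
        exact mul_le_mul_of_nonneg_right (by linarith) hMnn
    _ = M / 2 := by ring

lemma contract_pow {P : Matrix S S ℝ} (hsym : ∀ a b, P a b = P b a)
    (hrow : ∀ a, ∑ b, P a b = 1) {t : ℕ} {c : ℝ} {g : S → ℝ} {M : ℝ} (hg : ∑ a, g a = 0)
    (hM : ∀ a, |g a| ≤ M)
    (hmix : ∀ a, (∑ b, |(P ^ t) a b - c|) / 2 ≤ 1 / 4) (k : ℕ) (a : S) :
    |((P ^ (t * k)) *ᵥ g) a| ≤ M / 2 ^ k := by
  induction k generalizing a with
  | zero => simpa using hM a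
  | succ k ih =>
    have e : t * (k + 1) = t + t * k := by ring
    rw [e, pow_add, ← Matrix.mulVec_mulVec]
    have h0 : ∑ a, ((P ^ (t * k)) *ᵥ g) a = 0 := by
      rw [sum_pow_mulVec hsym hrow, hg]
    have h1 := contract (P := P) (t := t) (c := c) h0 ih hmix a
    calc _ ≤ M / 2 ^ k / 2 := h1
      _ = M / 2 ^ (k + 1) := by rw [pow_succ]; ring

lemma dot_mulVec_comm {P : Matrix S S ℝ} (hsym : ∀ a b, P a b = P b a) (f g : S → ℝ) :
    (P *ᵥ f) ⬝ᵥ g = f ⬝ᵥ (P *ᵥ g) := by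
  simp only [Matrix.mulVec, dotProduct, Finset.sum_mul, Finset.mul_sum]
  rw [Finset.sum_comm]
  apply Finset.sum_congr rfl; intro a _
  apply Finset.sum_congr rfl; intro b _
  rw [hsym b a]; ring

lemma dot_cs (f g : S → ℝ) : (f ⬝ᵥ g) ^ 2 ≤ (f ⬝ᵥ f) * (g ⬝ᵥ g) := by
  have := Finset.sum_mul_sq_le_sq_mul_sq Finset.univ f g
  simp only [dotProduct]
  have e1 : ∑ i, f i * f i = ∑ i, f i ^ 2 := Finset.sum_congr rfl (fun i _ => by ring)
  have e2 : ∑ i, g i * g i = ∑ i, g i ^ 2 := Finset.sum_congr rfl (fun i _ => by ring)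
  rw [e1, e2]
  exact this

lemma dirichlet_eq {P : Matrix S S ℝ} (hsym : ∀ a b, P a b = P b a)
    (hrow : ∀ a, ∑ b, P a b = 1) (f : S → ℝ) :
    (∑ a, ∑ b, P a b * (f a - f b) ^ 2) / 2 = f ⬝ᵥ f - f ⬝ᵥ (P *ᵥ f) := by
  have e1 : ∑ a, ∑ b, P a b * (f a) ^ 2 = f ⬝ᵥ f := by
    simp only [dotProduct]
    apply Finset.sum_congr rfl; intro a _
    rw [← Finset.sum_mul, hrow]; ring
  have e2 : ∑ a, ∑ b, P a b * (f b) ^ 2 = f ⬝ᵥ f := by
    rw [Finset.sum_comm]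
    simp only [dotProduct]
    apply Finset.sum_congr rfl; intro b _
    have : ∑ a, P a b * (f b) ^ 2 = (∑ a, P b a) * (f b) ^ 2 := by
      rw [Finset.sum_mul]
      exact Finset.sum_congr rfl (fun a _ => by rw [hsym])
    rw [this, hrow]; ring
  have e3 : ∑ a, ∑ b, P a b * (f a * f b) = f ⬝ᵥ (P *ᵥ f) := by
    simp only [dotProduct, Matrix.mulVec, Finset.mul_sum]
    apply Finset.sum_congr rfl; intro a _
    apply Finset.sum_congr rfl; intro b _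
    ring
  have e4 : ∑ a, ∑ b, P a b * (f a - f b) ^ 2
      = ∑ a, ∑ b, P a b * (f a) ^ 2 + ∑ a, ∑ b, P a b * (f b) ^ 2
        - 2 * ∑ a, ∑ b, P a b * (f a * f b) := by
    rw [Finset.mul_sum, ← Finset.sum_add_distrib, ← Finset.sum_sub_distrib]
    apply Finset.sum_congr rfl; intro a _
    rw [Finset.mul_sum, ← Finset.sum_add_distrib, ← Finset.sum_sub_distrib]
    apply Finset.sum_congr rfl; intro b _
    ring
  rw [e4, e1, e2, e3]; ring

lemma log_convex_lower {b : ℕ → ℝ} (hb : ∀ s, 0 ≤ b s) (hb0 : 0 < b 0) {q : ℝ} (hq : 0 < q)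
    (h1 : q * b 0 ≤ b 1) (hc : ∀ s, b (s + 1) ^ 2 ≤ b s * b (s + 2)) (s : ℕ) :
    q ^ s * b 0 ≤ b s := by
  have key : ∀ s, 0 < b s ∧ q * b s ≤ b (s + 1) := by
    intro s
    induction s with
    | zero => exact ⟨hb0, h1⟩
    | succ s ih =>
      obtain ⟨p1, p2⟩ := ih
      have p3 : 0 < b (s + 1) := lt_of_lt_of_le (mul_pos hq p1) p2
      refine ⟨p3, ?_⟩
      have h2 := hc s
      have h3 : b s * (q * b (s + 1)) ≤ b s * b (s + 2) := by
        calc b s * (q * b (s + 1)) = (q * b s) * b (s + 1) := by ring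
          _ ≤ b (s + 1) * b (s + 1) := by gcongr
          _ = b (s + 1) ^ 2 := by ring
          _ ≤ _ := h2
      exact le_of_mul_le_mul_left h3 p1
  induction s with
  | zero => simp
  | succ s ih =>
    calc q ^ (s + 1) * b 0 = q * (q ^ s * b 0) := by ring
      _ ≤ q * b s := by gcongr
      _ ≤ b (s + 1) := (key s).2

/-- The relaxation-type lower bound on the mixing time by a test function. -/
theorem mixing_lower {P : Matrix S S ℝ} (hsym : ∀ a b, P a b = P b a)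
    (hrow : ∀ a, ∑ b, P a b = 1) {t : ℕ} (ht : 1 ≤ t) {c : ℝ}
    (hmix : ∀ a, (∑ b, |(P ^ t) a b - c|) / 2 ≤ 1 / 4)
    {f : S → ℝ} (hf0 : ∑ a, f a = 0) (hf : 0 < ∑ a, f a ^ 2) {ε : ℝ}
    (hε : (∑ a, ∑ b, P a b * (f a - f b) ^ 2) / 2 ≤ ε * ∑ a, f a ^ 2) :
    1 / 2 ≤ ε * t := by
  have ht' : (1 : ℝ) ≤ t := by exact_mod_cast ht
  rcases le_or_gt (1 / 2) ε with h | hlt
  · nlinarith
  have hff : f ⬝ᵥ f = ∑ a, f a ^ 2 := by
    simp only [dotProduct]; exact Finset.sum_congr rfl (fun a _ => by ring)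
  rw [dirichlet_eq hsym hrow, ← hff] at hε
  rw [← hff] at hf
  set b : ℕ → ℝ := fun s => ((P ^ s) *ᵥ f) ⬝ᵥ ((P ^ s) *ᵥ f) with hb
  have hbnn : ∀ s, 0 ≤ b s := by
    intro s
    simp only [hb, dotProduct]
    exact Finset.sum_nonneg (fun i _ => mul_self_nonneg _)
  have hb0 : b 0 = f ⬝ᵥ f := by simp [hb]
  have hstep : ∀ s, (P ^ (s + 1)) *ᵥ f = P *ᵥ ((P ^ s) *ᵥ f) := by
    intro s; rw [pow_succ', ← Matrix.mulVec_mulVec]
  have hc : ∀ s, b (s + 1) ^ 2 ≤ b s * b (s + 2) := by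
    intro s
    have e : b (s + 1) = ((P ^ s) *ᵥ f) ⬝ᵥ ((P ^ (s + 2)) *ᵥ f) := by
      simp only [hb]
      rw [hstep (s + 1)]
      conv_lhs => rw [hstep s, dot_mulVec_comm hsym, ← hstep s]
    rw [e]
    exact dot_cs _ _
  have h1 : (1 - ε) ^ 2 * b 0 ≤ b 1 := by
    have h2 : (1 - ε) * (f ⬝ᵥ f) ≤ f ⬝ᵥ (P *ᵥ f) := by linarith
    have h3 := dot_cs f (P *ᵥ f)
    have e1 : b 1 = (P *ᵥ f) ⬝ᵥ (P *ᵥ f) := by simp [hb]
    rw [hb0, e1]
    have h4 : ((1 - ε) * (f ⬝ᵥ f)) ^ 2 ≤ (f ⬝ᵥ (P *ᵥ f)) ^ 2 := by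
      apply pow_le_pow_left₀ _ h2
      have : 0 ≤ 1 - ε := by linarith
      positivity
    have h5 : (f ⬝ᵥ f) * ((1 - ε) ^ 2 * (f ⬝ᵥ f)) ≤ (f ⬝ᵥ f) * ((P *ᵥ f) ⬝ᵥ (P *ᵥ f)) := by
      calc (f ⬝ᵥ f) * ((1 - ε) ^ 2 * (f ⬝ᵥ f)) = ((1 - ε) * (f ⬝ᵥ f)) ^ 2 := by ring
        _ ≤ _ := h4.trans h3
    exact le_of_mul_le_mul_left h5 hf
  have hqpos : (0 : ℝ) < (1 - ε) ^ 2 := by
    have : 0 < 1 - ε := by linarith
    positivity
  have hlow := log_convex_lower hbnn (by rw [hb0]; exact hf) hqpos h1 hc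
  -- upper bound
  obtain ⟨M, hM⟩ : ∃ M : ℝ, ∀ a, |f a| ≤ M :=
    ⟨∑ a, |f a|, fun a => Finset.single_le_sum (f := fun a => |f a|) (fun i _ => abs_nonneg _)
      (Finset.mem_univ a)⟩
  have hup : ∀ k : ℕ, b (t * k) ≤ (Fintype.card S : ℝ) * (M / 2 ^ k) ^ 2 := by
    intro k
    simp only [hb, dotProduct]
    calc ∑ i, ((P ^ (t * k)) *ᵥ f) i * ((P ^ (t * k)) *ᵥ f) i
        ≤ ∑ _i : S, (M / 2 ^ k) ^ 2 := by
          apply Finset.sum_le_sum
          intro i _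
          have h := contract_pow hsym hrow hf0 hM hmix k i
          have := pow_le_pow_left₀ (abs_nonneg _) h 2
          rw [sq_abs] at this
          nlinarith
      _ = _ := by simp
  -- compare
  have hcmp : ∀ k : ℕ, (4 * ((1 - ε) ^ 2) ^ t) ^ k * b 0 ≤ (Fintype.card S : ℝ) * M ^ 2 := by
    intro k
    have h2 := (hlow (t * k)).trans (hup k)
    have e1 : (4 * ((1 - ε) ^ 2) ^ t) ^ k = 4 ^ k * ((1 - ε) ^ 2) ^ (t * k) := by
      rw [mul_pow, pow_mul ((1 - ε) ^ 2) t k]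
    have e2 : (Fintype.card S : ℝ) * (M / 2 ^ k) ^ 2 = (Fintype.card S : ℝ) * M ^ 2 / 4 ^ k := by
      have : (4 : ℝ) ^ k = (2 ^ k) ^ 2 := by rw [← pow_mul, mul_comm, pow_mul]; norm_num
      rw [this, div_pow]; ring
    rw [e2, le_div_iff₀ (by positivity)] at h2
    rw [e1]
    linarith
  have hle : 4 * ((1 - ε) ^ 2) ^ t ≤ 1 := by
    by_contra hcon
    push Not at hcon
    have htend := tendsto_pow_atTop_atTop_of_one_lt hcon
    obtain ⟨k, hk⟩ := (htend.eventually_gt_atTop ((Fintype.card S : ℝ) * M ^ 2 / b 0)).exists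
    have hbp : 0 < b 0 := by rw [hb0]; exact hf
    rw [div_lt_iff₀ hbp] at hk
    exact absurd (hcmp k) (not_le.2 hk)
  have h2 : (1 - ε) ^ t ≤ 1 / 2 := by
    have h3 : (2 * (1 - ε) ^ t) ^ 2 ≤ 1 := by
      calc (2 * (1 - ε) ^ t) ^ 2 = 4 * ((1 - ε) ^ 2) ^ t := by
            rw [mul_pow, ← pow_mul, ← pow_mul, mul_comm t 2]; norm_num
        _ ≤ 1 := hle
    have h4 : 0 ≤ (1 - ε) ^ t := by
      have : 0 ≤ 1 - ε := by linarith
      positivity
    nlinarith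
  have h3 := one_add_mul_le_pow (show (-2 : ℝ) ≤ -ε by linarith) t
  have h4 : (1 + -ε) ^ t = (1 - ε) ^ t := by ring_nf
  rw [h4] at h3
  linarith

end Pool.Agent.FlipWalk
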