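import Pool.Agent.FlipWalk.Energy
import Pool.Agent.FlipWalk.Markov

/-!
The lower bound `c n^{3/2} log n` for the mixing time of the flip walk.
-/

namespace Pool.Agent.FlipWalk

open Finset

lemma nonempty_triangulation {n : ℕ} (hn : 4 ≤ n) : Nonempty (Triangulation n) := by
  have h := card_triangulation (n := n) (by omega)
  have h2 : (0 : ℝ) < (Fintype.card (Triangulation n) : ℝ) := by
    rw [h]
    have := cc_pos (s := n - 1) (by omega)
    positivity
  exact Fintype.card_pos_iff.1 (by exact_mod_cast h2)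

lemma exists_ne {n : ℕ} (hn : 4 ≤ n) (T : Triangulation n) : ∃ T' : Triangulation n, T' ≠ T := by
  have hc := card_diagonals (n := n) (by omega) T
  have hne : T.1.Nonempty := by
    rw [← Finset.card_pos, hc]; omega
  obtain ⟨d, hd⟩ := hne
  by_contra hcon
  push Not at hcon
  have h := sum_flip (n := n) (by omega) T hd
  rw [Finset.sum_eq_zero] at h
  · norm_num at h
  · intro T' _
    rw [if_neg]
    intro h'
    exact h'.1 (hcon T')

lemma one_le_of_mixed {n t : ℕ} (hn : 4 ≤ n) (h : Mixed n t) : 1 ≤ t := by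
  by_contra hcon
  have ht : t = 0 := by omega
  subst ht
  obtain ⟨T⟩ := nonempty_triangulation hn
  obtain ⟨T', hT'⟩ := exists_ne hn T
  have h1 := h T
  unfold tvDist at h1
  rw [pow_zero] at h1
  set M : ℝ := (Fintype.card (Triangulation n) : ℝ) with hM
  have h2 : ∑ U ∈ ({T, T'} : Finset (Triangulation n)),
      |(1 : Matrix (Triangulation n) (Triangulation n) ℝ) T U - 1 / M|
      ≤ ∑ U : Triangulation n,
        |(1 : Matrix (Triangulation n) (Triangulation n) ℝ) T U - 1 / M| :=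
    Finset.sum_le_sum_of_subset_of_nonneg (Finset.subset_univ _) (fun _ _ _ => abs_nonneg _)
  rw [Finset.sum_pair hT'.symm, Matrix.one_apply_eq, Matrix.one_apply_ne hT'.symm] at h2
  have h3 : 1 - 1 / M ≤ |1 - 1 / M| := le_abs_self _
  have h4 : 1 / M ≤ |0 - 1 / M| := by
    rw [zero_sub, abs_neg]; exact le_abs_self _
  linarith

lemma HH_eq_sum_Icc (m : ℕ) : ∑ k ∈ Finset.Icc 1 m, 1 / (k : ℝ) = HH m := by
  induction m with
  | zero => simp [HH]
  | succ m ih =>
    rw [Finset.sum_Icc_succ_top (by omega), ih]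
    unfold HH
    rw [Finset.sum_range_succ]
    push_cast
    ring

lemma log_le_HH (m : ℕ) : Real.log ((m : ℝ) + 1) ≤ HH m := by
  induction m with
  | zero => simp [HH]
  | succ m ih =>
    have h : HH (m + 1) = HH m + 1 / ((m : ℝ) + 1) := by
      unfold HH; rw [Finset.sum_range_succ]
    rw [h]
    have hm : (0 : ℝ) < (m : ℝ) + 1 := by positivity
    have h2 : Real.log (((m + 1 : ℕ) : ℝ) + 1) = Real.log ((m : ℝ) + 1)
        + Real.log (1 + 1 / ((m : ℝ) + 1)) := by
      rw [← Real.log_mul (by positivity) (by positivity)]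
      congr 1
      field_simp
      push_cast
      ring
    have h3 := Real.log_le_sub_one_of_pos (show (0 : ℝ) < 1 + 1 / ((m : ℝ) + 1) by positivity)
    rw [h2]
    linarith

/-- the bound for large `n`, before simplifying. -/
lemma mixed_lower {n t : ℕ} (hn : 17 ≤ n) (h : Mixed n t) {m : ℕ} (hm1 : 1 ≤ m)
    (hm : ((m : ℝ) - 1) * (20480 / Real.sqrt ((n - 1 : ℕ) : ℝ)) ≤ 1 / 8192) :
    Real.sqrt ((n - 1 : ℕ) : ℝ) * ((n : ℝ) - 3) * HH m ≤ 671088640 * t := by
  set s := Real.sqrt ((n - 1 : ℕ) : ℝ) with hs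
  have hspos : 0 < s := Real.sqrt_pos.2 (by exact_mod_cast (by omega : 0 < n - 1))
  have hn3 : (0 : ℝ) < (n : ℝ) - 3 := by
    have : (17 : ℝ) ≤ n := by exact_mod_cast hn
    linarith
  have hH : 0 < HH m := by
    have : HH 1 ≤ HH m := HH_mono hm1
    have h1 : HH 1 = 1 := by simp [HH]
    linarith
  set M : ℝ := (Fintype.card (Triangulation n) : ℝ) with hM
  have hMpos : 0 < M := by
    have hne := nonempty_triangulation (n := n) (by omega)
    have hcp : 0 < Fintype.card (Triangulation n) := Fintype.card_pos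
    rw [hM]
    exact_mod_cast hcp
  have hn1 : 1 ≤ n := by omega
  have hgg := sum_gg_sq_ge hn hm1 hm
  have hff := sum_ff_sq n m hn1
  have hpos : 0 < ∑ T : Triangulation n, ff n m hn1 T ^ 2 := by
    rw [hff]
    have : 0 < M / 8192 * HH m ^ 2 := by positivity
    linarith
  have hE := energy_ff (n := n) (m := m) (by omega)
  have hlev : ∑ k ∈ Finset.Icc 1 m, lev n k / (k : ℝ) ≤ 20480 / s * M * HH m := by
    rw [← HH_eq_sum_Icc, Finset.mul_sum]
    apply Finset.sum_le_sum
    intro k hk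
    rw [Finset.mem_Icc] at hk
    have h1 := lev_le (n := n) hn hk.1
    have hk0 : (0 : ℝ) < k := by exact_mod_cast hk.1
    rw [mul_one_div]
    gcongr
  have hε : (∑ T : Triangulation n, ∑ T' : Triangulation n,
      flipWalk n T T' * (ff n m hn1 T - ff n m hn1 T') ^ 2) / 2
      ≤ (335544320 / (s * ((n : ℝ) - 3) * HH m)) * ∑ T : Triangulation n, ff n m hn1 T ^ 2 := by
    calc _ ≤ 4 * ((∑ k ∈ Finset.Icc 1 m, lev n k / (k : ℝ)) / ((n : ℝ) - 3)) := hE
      _ ≤ 4 * ((20480 / s * M * HH m) / ((n : ℝ) - 3)) := by gcongr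
      _ = (335544320 / (s * ((n : ℝ) - 3) * HH m)) * (2 * (M / 8192 * HH m ^ 2)) := by
          field_simp
          norm_num
      _ ≤ (335544320 / (s * ((n : ℝ) - 3) * HH m)) *
            ∑ T : Triangulation n, ff n m hn1 T ^ 2 := by
          rw [hff]
          gcongr
  have hmix : ∀ T : Triangulation n,
      (∑ T' : Triangulation n, |(flipWalk n ^ t) T T' - 1 / M|) / 2 ≤ 1 / 4 := h
  have hfin := mixing_lower (flipWalk_symm (by omega)) (flipWalk_row (by omega))
    (one_le_of_mixed (by omega) h) hmix (sum_ff n m hn1) hpos hε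
  rw [div_mul_eq_mul_div, div_le_div_iff₀ (by norm_num) (by positivity)] at hfin
  linarith

/-- The mixing time of the flip walk is at least `c n^{3/2} log n`. -/
theorem main_lower {n t : ℕ} (hn : 4 ≤ n) (h : Mixed n t) :
    1 / 2 ^ 37 * ((n : ℝ) * Real.sqrt n) * Real.log n ≤ t := by
  have hnR : (4 : ℝ) ≤ n := by exact_mod_cast hn
  have hlogn : 0 ≤ Real.log n := Real.log_nonneg (by linarith)
  have hsq0 : 0 ≤ Real.sqrt n := Real.sqrt_nonneg _
  rcases Nat.lt_or_ge n 17 with hsmall | hbig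
  · have ht : (1 : ℝ) ≤ t := by exact_mod_cast one_le_of_mixed hn h
    have h16 : (n : ℝ) ≤ 16 := by exact_mod_cast (by omega : n ≤ 16)
    have hs4 : Real.sqrt n ≤ 4 := by
      rw [Real.sqrt_le_left (by norm_num)]; linarith
    have hl : Real.log n ≤ 16 := by
      have := Real.log_le_sub_one_of_pos (show (0 : ℝ) < n by linarith)
      linarith
    calc 1 / 2 ^ 37 * ((n : ℝ) * Real.sqrt n) * Real.log n
        ≤ 1 / 2 ^ 37 * (16 * 4) * 16 := by gcongr
      _ ≤ 1 := by norm_num
      _ ≤ t := ht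
  · set s := Real.sqrt ((n - 1 : ℕ) : ℝ) with hs
    have hN : (((n - 1 : ℕ) : ℝ)) = n - 1 := by
      rw [Nat.cast_sub (by omega)]; simp
    have hspos : 0 < s := Real.sqrt_pos.2 (by exact_mod_cast (by omega : 0 < n - 1))
    have hs2 : s ^ 2 = n - 1 := by rw [hs, Real.sq_sqrt (Nat.cast_nonneg _), hN]
    set m := ⌊s / 2 ^ 28⌋₊ + 1 with hmdef
    have hm1 : 1 ≤ m := by omega
    have hfl : ((⌊s / 2 ^ 28⌋₊ : ℕ) : ℝ) ≤ s / 2 ^ 28 := Nat.floor_le (by positivity)
    have hfl2 : s / 2 ^ 28 < ((⌊s / 2 ^ 28⌋₊ : ℕ) : ℝ) + 1 := Nat.lt_floor_add_one _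
    have hm : ((m : ℝ) - 1) * (20480 / s) ≤ 1 / 8192 := by
      rw [hmdef]
      push_cast
      calc ((⌊s / 2 ^ 28⌋₊ : ℝ) + 1 - 1) * (20480 / s) = (⌊s / 2 ^ 28⌋₊ : ℝ) * (20480 / s) := by
            ring
        _ ≤ (s / 2 ^ 28) * (20480 / s) := by gcongr
        _ = 20480 / 2 ^ 28 := by field_simp
        _ ≤ 1 / 8192 := by norm_num
    have hmain := mixed_lower hbig h hm1 hm
    have hH1 : 1 ≤ HH m := by
      have h1 : HH 1 ≤ HH m := HH_mono hm1
      have h2 : HH 1 = 1 := by simp [HH]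
      linarith
    have hH2 : Real.log (s / 2 ^ 28) ≤ HH m := by
      refine le_trans ?_ (log_le_HH m)
      apply Real.log_le_log (by positivity)
      rw [hmdef]; push_cast; linarith
    have hlog : Real.log n ≤ 42 * HH m := by
      have e1 : Real.log (s / 2 ^ 28) = Real.log s - 28 * Real.log 2 := by
        rw [Real.log_div hspos.ne' (by norm_num), Real.log_pow]; norm_num
      have e2 : Real.log n ≤ Real.log 2 + 2 * Real.log s := by
        have : Real.log (2 * s ^ 2) = Real.log 2 + 2 * Real.log s := by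
          rw [Real.log_mul (by norm_num) (by positivity), Real.log_pow]; norm_num
        rw [← this]
        apply Real.log_le_log (by linarith)
        rw [hs2]
        have : (17 : ℝ) ≤ n := by exact_mod_cast hbig
        linarith
      have e3 := Real.log_two_lt_d9
      nlinarith
    have hsn : Real.sqrt n ≤ 2 * s := by
      rw [Real.sqrt_le_left (by positivity), mul_pow, hs2]
      have : (17 : ℝ) ≤ n := by exact_mod_cast hbig
      linarith
    have hn3 : (n : ℝ) ≤ 2 * ((n : ℝ) - 3) := by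
      have : (17 : ℝ) ≤ n := by exact_mod_cast hbig
      linarith
    have hn3' : 0 ≤ (n : ℝ) - 3 := by linarith
    calc 1 / 2 ^ 37 * ((n : ℝ) * Real.sqrt n) * Real.log n
        ≤ 1 / 2 ^ 37 * ((2 * ((n : ℝ) - 3)) * (2 * s)) * (42 * HH m) := by gcongr
      _ = (168 / 2 ^ 37) * (s * ((n : ℝ) - 3) * HH m) := by ring
      _ ≤ (168 / 2 ^ 37) * (671088640 * t) := by gcongr
      _ ≤ t := by
          have : (0 : ℝ) ≤ t := Nat.cast_nonneg _
          nlinarith

end Pool.Agent.FlipWalk
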