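import Mathlib

/-!
Triangulations of the interval polygon with vertices `p, p+1, …, q`
(sides `(p,p+1), …, (q-1,q)` and `(p,q)`).
-/

namespace Pool.Agent.FlipWalk

open Finset

/-- `(a,b)` is a diagonal of the polygon with vertices `p,…,q`. -/
def IsD (p q a b : ℕ) : Prop := p ≤ a ∧ a + 2 ≤ b ∧ b ≤ q ∧ ¬ (a = p ∧ b = q)

/-- `T` is a maximal non-crossing set of diagonals of the polygon `p,…,q`. -/
structure IsTri (p q : ℕ) (T : Finset (ℕ × ℕ)) : Prop where
  diag : ∀ a b, (a, b) ∈ T → IsD p q a b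
  nc : ∀ a b c d, (a, b) ∈ T → (c, d) ∈ T → ¬ (a < c ∧ c < b ∧ b < d)
  mx : ∀ a b, IsD p q a b →
    (∀ c d, (c, d) ∈ T → ¬ (a < c ∧ c < b ∧ b < d) ∧ ¬ (c < a ∧ a < d ∧ d < b)) → (a, b) ∈ T

/-- `(a,b)` is a chord of `T` or a unit side. -/
def Sd (T : Finset (ℕ × ℕ)) (a b : ℕ) : Prop := (a, b) ∈ T ∨ b = a + 1

/-- chords of `T` inside `[a,b]`, other than `(a,b)`. -/
def res (a b : ℕ) (T : Finset (ℕ × ℕ)) : Finset (ℕ × ℕ) :=
  T.filter fun d => a ≤ d.1 ∧ d.2 ≤ b ∧ ¬ (d.1 = a ∧ d.2 = b)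

/-- the chord `(a,b)` as a set, empty if it is a unit side. -/
def tp (a b : ℕ) : Finset (ℕ × ℕ) := if a + 2 ≤ b then {(a, b)} else ∅

/-- glue two triangulations along the apex `r`. -/
def jn (p r q : ℕ) (T₁ T₂ : Finset (ℕ × ℕ)) : Finset (ℕ × ℕ) :=
  T₁ ∪ T₂ ∪ (tp p r ∪ tp r q)

lemma mem_res {a b c d : ℕ} {T : Finset (ℕ × ℕ)} :
    (c, d) ∈ res a b T ↔ (c, d) ∈ T ∧ a ≤ c ∧ d ≤ b ∧ ¬ (c = a ∧ d = b) := by
  simp [res]

lemma mem_tp {a b c d : ℕ} : (c, d) ∈ tp a b ↔ c = a ∧ d = b ∧ a + 2 ≤ b := by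
  unfold tp
  split_ifs with h <;> simp [h]

lemma mem_jn {p r q c d : ℕ} {T₁ T₂ : Finset (ℕ × ℕ)} :
    (c, d) ∈ jn p r q T₁ T₂ ↔ (c, d) ∈ T₁ ∨ (c, d) ∈ T₂ ∨ (c = p ∧ d = r ∧ p + 2 ≤ r) ∨
      (c = r ∧ d = q ∧ r + 2 ≤ q) := by
  simp [jn, mem_tp]

lemma IsTri.apex {p q : ℕ} {T : Finset (ℕ × ℕ)} (h : IsTri p q T) (hpq : p + 2 ≤ q) :
    ∃ r, p < r ∧ r < q ∧ Sd T p r ∧ Sd T r q := by
  classical
  have hex : ∃ r, (p < r ∧ r < q ∧ Sd T p r) ∧ ∀ x, (p < x ∧ x < q ∧ Sd T p x) → x ≤ r := by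
    have h1 : (Finset.filter (fun x => p < x ∧ x < q ∧ Sd T p x) (Finset.range q)).Nonempty := by
      refine ⟨p + 1, ?_⟩
      simp only [Finset.mem_filter, Finset.mem_range]
      exact ⟨by omega, by omega, by omega, Or.inr rfl⟩
    obtain ⟨r, hr, hmax⟩ := Finset.exists_max_image _ (fun x => x) h1
    simp only [Finset.mem_filter, Finset.mem_range] at hr hmax
    exact ⟨r, hr.2, fun x hx => hmax x ⟨hx.2.1, hx⟩⟩
  obtain ⟨r, ⟨hr1, hr2, hr3⟩, hmax⟩ := hex
  refine ⟨r, hr1, hr2, hr3, ?_⟩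
  by_cases hq : q = r + 1
  · exact Or.inr hq
  left
  apply h.mx r q ⟨by omega, by omega, le_refl _, by omega⟩
  intro c d hcd
  have hD := h.diag c d hcd
  unfold IsD at hD
  refine ⟨by omega, ?_⟩
  rintro ⟨h1, h2, h3⟩
  by_cases hc : c = p
  · subst hc
    have := hmax d ⟨by omega, h3, Or.inl hcd⟩
    omega
  · rcases hr3 with hr3 | hr3
    · exact h.nc p r c d hr3 hcd ⟨by omega, h1, h2⟩
    · omega

lemma IsTri.apex_unique {p q : ℕ} {T : Finset (ℕ × ℕ)} (h : IsTri p q T) {r r' : ℕ}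
    (h1 : p < r) (h2 : r < q) (h3 : Sd T p r) (h4 : Sd T r q)
    (h1' : p < r') (h2' : r' < q) (h3' : Sd T p r') (h4' : Sd T r' q) : r = r' := by
  rcases Nat.lt_trichotomy r r' with hlt | heq | hlt
  · exfalso
    rcases h3' with h3' | h3'
    · rcases h4 with h4 | h4
      · exact h.nc p r' r q h3' h4 ⟨h1, hlt, h2'⟩
      · omega
    · omega
  · exact heq
  · exfalso
    rcases h3 with h3 | h3
    · rcases h4' with h4' | h4'
      · exact h.nc p r r' q h3 h4' ⟨h1', hlt, h2⟩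
      · omega
    · omega

lemma IsTri.res {p q a b : ℕ} {T : Finset (ℕ × ℕ)} (h : IsTri p q T)
    (hs : (a, b) ∈ T ∨ b = a + 1 ∨ (a = p ∧ b = q)) (hpa : p ≤ a) (hbq : b ≤ q) :
    IsTri a b (res a b T) := by
  constructor
  · intro c d hcd
    rw [mem_res] at hcd
    have hD := h.diag c d hcd.1
    unfold IsD at *
    omega
  · intro c d e f h1 h2
    rw [mem_res] at h1 h2
    exact h.nc c d e f h1.1 h2.1
  · intro x y hD hx
    rw [mem_res]
    unfold IsD at hD
    refine ⟨?_, hD.1, hD.2.2.1, hD.2.2.2⟩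
    apply h.mx x y
    · unfold IsD
      omega
    · intro c d hcd
      have hD' := h.diag c d hcd
      unfold IsD at hD'
      by_cases hin : a ≤ c ∧ d ≤ b ∧ ¬ (c = a ∧ d = b)
      · exact hx c d (mem_res.2 ⟨hcd, hin⟩)
      · rcases hs with hs | hs | hs
        · have n1 := h.nc a b c d hs hcd
          have n2 := h.nc c d a b hcd hs
          omega
        · omega
        · omega

lemma IsTri.join {p r q : ℕ} {T₁ T₂ : Finset (ℕ × ℕ)} (h₁ : IsTri p r T₁) (h₂ : IsTri r q T₂)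
    (hpr : p < r) (hrq : r < q) : IsTri p q (jn p r q T₁ T₂) := by
  have hin : ∀ c d, (c, d) ∈ jn p r q T₁ T₂ →
      ((c, d) ∈ T₁ ∨ (c = p ∧ d = r)) ∧ p ≤ c ∧ c + 2 ≤ d ∧ d ≤ r ∨
      ((c, d) ∈ T₂ ∨ (c = r ∧ d = q)) ∧ r ≤ c ∧ c + 2 ≤ d ∧ d ≤ q := by
    intro c d hcd
    rw [mem_jn] at hcd
    rcases hcd with h | h | h | h
    · left
      have := h₁.diag c d h
      unfold IsD at this
      exact ⟨Or.inl h, by omega⟩
    · right
      have := h₂.diag c d h
      unfold IsD at this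
      exact ⟨Or.inl h, by omega⟩
    · left
      exact ⟨Or.inr (by omega), by omega⟩
    · right
      exact ⟨Or.inr (by omega), by omega⟩
  constructor
  · intro c d hcd
    unfold IsD
    rcases hin c d hcd with h | h <;> omega
  · intro a b c d hab hcd
    rcases hin a b hab with ⟨ha, ha'⟩ | ⟨ha, ha'⟩ <;> rcases hin c d hcd with ⟨hc, hc'⟩ | ⟨hc, hc'⟩
    · rcases ha with ha | ha
      · rcases hc with hc | hc
        · exact h₁.nc a b c d ha hc
        · omega
      · omega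
    · omega
    · omega
    · rcases ha with ha | ha
      · rcases hc with hc | hc
        · exact h₂.nc a b c d ha hc
        · omega
      · omega
  · intro x y hD hx
    unfold IsD at hD
    rw [mem_jn]
    by_cases h1 : y ≤ r
    · by_cases h2 : x = p ∧ y = r
      · right; right; left; omega
      · left
        apply h₁.mx x y
        · unfold IsD; omega
        · intro c d hcd
          exact hx c d (mem_jn.2 (Or.inl hcd))
    · by_cases h3 : r ≤ x
      · by_cases h2 : x = r ∧ y = q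
        · right; right; right; omega
        · right; left
          apply h₂.mx x y
          · unfold IsD; omega
          · intro c d hcd
            exact hx c d (mem_jn.2 (Or.inr (Or.inl hcd)))
      · exfalso
        by_cases h4 : x = p
        · have := hx r q (mem_jn.2 (Or.inr (Or.inr (Or.inr ⟨rfl, rfl, by omega⟩))))
          omega
        · have := hx p r (mem_jn.2 (Or.inr (Or.inr (Or.inl ⟨rfl, rfl, by omega⟩))))
          omega

lemma IsTri.res_jn_left {p r q : ℕ} {T₁ T₂ : Finset (ℕ × ℕ)} (h₁ : IsTri p r T₁)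
    (h₂ : IsTri r q T₂) (hpr : p < r) (hrq : r < q) :
    Pool.Agent.FlipWalk.res p r (jn p r q T₁ T₂) = T₁ := by
  ext ⟨c, d⟩
  rw [mem_res, mem_jn]
  constructor
  · rintro ⟨h, h'⟩
    rcases h with h | h | h | h
    · exact h
    · have := h₂.diag c d h
      unfold IsD at this
      omega
    · omega
    · omega
  · intro h
    have := h₁.diag c d h
    unfold IsD at this
    exact ⟨Or.inl h, by omega⟩

lemma IsTri.res_jn_right {p r q : ℕ} {T₁ T₂ : Finset (ℕ × ℕ)} (h₁ : IsTri p r T₁)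
    (h₂ : IsTri r q T₂) (hpr : p < r) (hrq : r < q) :
    Pool.Agent.FlipWalk.res r q (jn p r q T₁ T₂) = T₂ := by
  ext ⟨c, d⟩
  rw [mem_res, mem_jn]
  constructor
  · rintro ⟨h, h'⟩
    rcases h with h | h | h | h
    · have := h₁.diag c d h
      unfold IsD at this
      omega
    · exact h
    · omega
    · omega
  · intro h
    have := h₂.diag c d h
    unfold IsD at this
    exact ⟨Or.inr (Or.inl h), by omega⟩

lemma IsTri.jn_res {p r q : ℕ} {T : Finset (ℕ × ℕ)} (h : IsTri p q T)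
    (hpr : p < r) (hrq : r < q) (h1 : Sd T p r) (h2 : Sd T r q) :
    jn p r q (Pool.Agent.FlipWalk.res p r T) (Pool.Agent.FlipWalk.res r q T) = T := by
  ext ⟨c, d⟩
  rw [mem_jn, mem_res, mem_res]
  constructor
  · rintro (h' | h' | h' | h')
    · exact h'.1
    · exact h'.1
    · obtain ⟨rfl, rfl, h3⟩ := h'
      rcases h1 with h1 | h1
      · exact h1
      · omega
    · obtain ⟨rfl, rfl, h3⟩ := h'
      rcases h2 with h2 | h2
      · exact h2
      · omega
  · intro hcd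
    have hD := h.diag c d hcd
    unfold IsD at hD
    by_cases h3 : d ≤ r
    · by_cases h4 : c = p ∧ d = r
      · right; right; left; omega
      · left; exact ⟨hcd, by omega⟩
    · by_cases h5 : r ≤ c
      · by_cases h4 : c = r ∧ d = q
        · right; right; right; omega
        · right; left; exact ⟨hcd, by omega⟩
      · exfalso
        by_cases h6 : c = p
        · rcases h2 with h2 | h2
          · exact h.nc c d r q hcd h2 ⟨by omega, by omega, by omega⟩
          · omega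
        · rcases h1 with h1 | h1
          · exact h.nc p r c d h1 hcd ⟨by omega, by omega, by omega⟩
          · omega

lemma IsTri.sd_res {p q a b x y : ℕ} {T : Finset (ℕ × ℕ)} (h : IsTri p q T)
    (hs : Sd (Pool.Agent.FlipWalk.res a b T) x y) : Sd T x y := by
  rcases hs with hs | hs
  · left; exact (mem_res.1 hs).1
  · right; exact hs

lemma IsTri.jn_apex {p r q : ℕ} {T₁ T₂ : Finset (ℕ × ℕ)} (hpr : p < r) (hrq : r < q) :
    Sd (jn p r q T₁ T₂) p r ∧ Sd (jn p r q T₁ T₂) r q := by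
  constructor
  · by_cases h : p + 2 ≤ r
    · left; rw [mem_jn]; right; right; left; exact ⟨rfl, rfl, h⟩
    · right; omega
  · by_cases h : r + 2 ≤ q
    · left; rw [mem_jn]; right; right; right; exact ⟨rfl, rfl, h⟩
    · right; omega

open Classical in
/-- the finite set of triangulations of `p,…,q`. -/
noncomputable def tri (p q : ℕ) : Finset (Finset (ℕ × ℕ)) :=
  ((Finset.range (q + 1) ×ˢ Finset.range (q + 1)).powerset).filter (IsTri p q)

lemma mem_tri {p q : ℕ} {T : Finset (ℕ × ℕ)} : T ∈ tri p q ↔ IsTri p q T := by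
  simp only [tri, Finset.mem_filter, Finset.mem_powerset]
  constructor
  · exact fun h => h.2
  · intro h
    refine ⟨?_, h⟩
    rintro ⟨a, b⟩ hab
    have := h.diag a b hab
    unfold IsD at this
    simp only [Finset.mem_product, Finset.mem_range]
    omega

open Classical in
/-- the apex of the triangle on the side `(p,q)`. -/
noncomputable def apx (p q : ℕ) (T : Finset (ℕ × ℕ)) : ℕ :=
  if h : ∃ r, p < r ∧ r < q ∧ Sd T p r ∧ Sd T r q then h.choose else 0

lemma IsTri.apx_spec {p q : ℕ} {T : Finset (ℕ × ℕ)} (h : IsTri p q T) (hpq : p + 2 ≤ q) :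
    p < apx p q T ∧ apx p q T < q ∧ Sd T p (apx p q T) ∧ Sd T (apx p q T) q := by
  unfold apx
  have hex := h.apex hpq
  rw [dif_pos hex]
  exact hex.choose_spec

lemma IsTri.apx_eq {p q : ℕ} {T : Finset (ℕ × ℕ)} (h : IsTri p q T) {r : ℕ}
    (h1 : p < r) (h2 : r < q) (h3 : Sd T p r) (h4 : Sd T r q) : apx p q T = r := by
  obtain ⟨a1, a2, a3, a4⟩ := h.apx_spec (by omega)
  exact h.apex_unique a1 a2 a3 a4 h1 h2 h3 h4

lemma sum_tri {M : Type*} [AddCommMonoid M] {p q : ℕ} (hpq : p + 2 ≤ q)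
    (f : Finset (ℕ × ℕ) → M) :
    ∑ T ∈ tri p q, f T =
      ∑ r ∈ Finset.Ioo p q, ∑ T₁ ∈ tri p r, ∑ T₂ ∈ tri r q, f (jn p r q T₁ T₂) := by
  have e1 : ∀ r ∈ Finset.Ioo p q, (∑ T₁ ∈ tri p r, ∑ T₂ ∈ tri r q, f (jn p r q T₁ T₂))
      = ∑ x ∈ tri p r ×ˢ tri r q, f (jn p r q x.1 x.2) := by
    intro r _
    rw [Finset.sum_product]
  rw [Finset.sum_congr rfl e1, Finset.sum_sigma']
  refine Finset.sum_nbij' (fun T => ⟨apx p q T, (res p (apx p q T) T, res (apx p q T) q T)⟩)
    (fun x => jn p x.1 q x.2.1 x.2.2) ?_ ?_ ?_ ?_ ?_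
  · intro T hT
    rw [mem_tri] at hT
    obtain ⟨a1, a2, a3, a4⟩ := hT.apx_spec hpq
    simp only [Finset.mem_sigma, Finset.mem_Ioo, Finset.mem_product, mem_tri]
    refine ⟨⟨a1, a2⟩, hT.res ?_ le_rfl a2.le, hT.res ?_ a1.le le_rfl⟩
    · rcases a3 with a3 | a3
      · exact Or.inl a3
      · exact Or.inr (Or.inl a3)
    · rcases a4 with a4 | a4
      · exact Or.inl a4
      · exact Or.inr (Or.inl a4)
  · rintro ⟨r, T₁, T₂⟩ hx
    simp only [Finset.mem_sigma, Finset.mem_Ioo, Finset.mem_product, mem_tri] at hx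
    rw [mem_tri]
    exact hx.2.1.join hx.2.2 hx.1.1 hx.1.2
  · intro T hT
    rw [mem_tri] at hT
    obtain ⟨a1, a2, a3, a4⟩ := hT.apx_spec hpq
    exact hT.jn_res a1 a2 a3 a4
  · rintro ⟨r, T₁, T₂⟩ hx
    simp only [Finset.mem_sigma, Finset.mem_Ioo, Finset.mem_product, mem_tri] at hx
    obtain ⟨⟨hr1, hr2⟩, h1, h2⟩ := hx
    have hj := h1.join h2 hr1 hr2
    obtain ⟨s1, s2⟩ := IsTri.jn_apex (T₁ := T₁) (T₂ := T₂) hr1 hr2
    have ha : apx p q (jn p r q T₁ T₂) = r := hj.apx_eq hr1 hr2 s1 s2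
    simp only
    rw [ha, h1.res_jn_left h2 hr1 hr2, h1.res_jn_right h2 hr1 hr2]
  · intro T hT
    rw [mem_tri] at hT
    obtain ⟨a1, a2, a3, a4⟩ := hT.apx_spec hpq
    simp only
    rw [hT.jn_res a1 a2 a3 a4]

lemma tri_side (p : ℕ) : tri p (p + 1) = {∅} := by
  ext T
  rw [mem_tri, Finset.mem_singleton]
  constructor
  · intro h
    rw [Finset.eq_empty_iff_forall_notMem]
    rintro ⟨a, b⟩ hab
    have := h.diag a b hab
    unfold IsD at this
    omega
  · rintro rfl
    constructor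
    · intro a b h; simp at h
    · intro a b c d h; simp at h
    · intro a b h
      unfold IsD at h
      omega

end Pool.Agent.FlipWalk
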